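import Pool.Agent.Lib.MP_2301b5_al.Defs

namespace Pool.Agent.Lib.MP_2301b5_al

instance (G : LGroup) : MulLeftMono G.carrier := ⟨fun z x y h => G.mul_left x y z h⟩
instance (G : LGroup) : MulRightMono G.carrier := ⟨fun z x y h => G.mul_right x y z h⟩

/-- totally ordered -/
def Tot (G : LGroup) : Prop := ∀ x y : G.carrier, x ≤ y ∨ y ≤ x

lemma Tot.lt_or {G : LGroup} (h : Tot G) (x y : G.carrier) : x < y ∨ x = y ∨ y < x := by
  rcases h x y with h1 | h1
  · rcases h1.lt_or_eq with h2 | h2
    · exact Or.inl h2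
    · exact Or.inr (Or.inl h2)
  · rcases h1.lt_or_eq with h2 | h2
    · exact Or.inr (Or.inr h2)
    · exact Or.inr (Or.inl h2.symm)

lemma Tot.not_le {G : LGroup} (h : Tot G) {x y : G.carrier} (hxy : ¬ x ≤ y) : y < x := by
  rcases h.lt_or x y with h1 | h1 | h1
  · exact absurd h1.le hxy
  · exact absurd h1.le hxy
  · exact h1

section ofCone

/-- A strict positive cone of a total group order. -/
structure PCone (G : Type) [Group G] where
  P : G → Prop
  mul : ∀ x y, P x → P y → P (x * y)
  conj : ∀ g x, P x → P (g⁻¹ * x * g)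
  irr : ¬ P 1
  tri : ∀ x, x ≠ 1 → P x ∨ P x⁻¹

variable {G : Type} [Group G]

open Classical in
/-- The linear order of a cone. -/
@[reducible] noncomputable def PCone.lin (C : PCone G) : LinearOrder G where
  le x y := x = y ∨ C.P (x⁻¹ * y)
  le_refl x := Or.inl rfl
  le_trans x y z h1 h2 := by
    rcases h1 with rfl | h1
    · exact h2
    rcases h2 with rfl | h2
    · exact Or.inr h1
    · right
      have := C.mul _ _ h1 h2
      simpa [mul_assoc] using this
  le_antisymm x y h1 h2 := by
    rcases h1 with rfl | h1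
    · rfl
    rcases h2 with rfl | h2
    · rfl
    · have := C.mul _ _ h1 h2
      simp [mul_assoc] at this
      exact absurd this C.irr
  le_total x y := by
    by_cases h : x = y
    · exact Or.inl (Or.inl h)
    · have : x⁻¹ * y ≠ 1 := fun h' => h (inv_mul_eq_one.1 h')
      rcases C.tri _ this with h1 | h1
      · exact Or.inl (Or.inr h1)
      · right; right; simpa using h1
  toDecidableLE := Classical.decRel _

/-- The ordered group of a cone. -/
noncomputable def PCone.grp (C : PCone G) : LGroup where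
  carrier := G
  grp := inferInstance
  lat := @LinearOrder.toLattice G C.lin
  mul_left x y z h := by
    rcases h with rfl | h
    · exact Or.inl rfl
    · right; simpa [mul_assoc] using h
  mul_right x y z h := by
    rcases h with rfl | h
    · exact Or.inl rfl
    · right
      have := C.conj z _ h
      simpa [mul_assoc] using this

lemma PCone.le_iff (C : PCone G) (x y : C.grp.carrier) : x ≤ y ↔ x = y ∨ C.P (x⁻¹ * y) := Iff.rfl

lemma PCone.tot (C : PCone G) : Tot C.grp := fun x y => C.lin.le_total x y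

lemma PCone.one_lt (C : PCone G) (x : C.grp.carrier) : 1 < x ↔ C.P x := by
  constructor
  · intro h
    rcases (C.le_iff 1 x).1 h.le with h1 | h1
    · exact absurd h1 h.ne
    · simpa using h1
  · intro h
    refine lt_of_le_of_ne ((C.le_iff 1 x).2 (Or.inr (by simpa using h))) ?_
    intro h1
    rw [← h1] at h
    exact C.irr h

end ofCone

section approx

/-- `f` is multiplicative and positive on `F`. -/
def Good {G H : LGroup} (F : Set G.carrier) (f : G.carrier → H.carrier) : Prop :=
  (∀ x ∈ F, ∀ y ∈ F, f (x * y) = f x * f y) ∧ ∀ x ∈ F, 1 < x → 1 < f x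

lemma Good.mono {G H : LGroup} {F F' : Set G.carrier} {f : G.carrier → H.carrier}
    (h : Good F f) (hF : F' ⊆ F) : Good F' f :=
  ⟨fun x hx y hy => h.1 x (hF hx) y (hF hy), fun x hx => h.2 x (hF hx)⟩

lemma Good.lt {G H : LGroup} {F : Set G.carrier} {f : G.carrier → H.carrier}
    (h : Good F f) {x y : G.carrier} (hx : x ∈ F) (hxy : x⁻¹ * y ∈ F) (hlt : x < y) :
    f x < f y := by
  have h1 := h.1 x hx _ hxy
  have h2 := h.2 _ hxy (by simpa using hlt)
  rw [mul_inv_cancel_left] at h1
  rw [h1]
  exact lt_mul_of_one_lt_right' _ h2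

lemma eval_mem {G : LGroup} (hG : Tot G) (S : Subgroup G.carrier) (v : ℕ → G.carrier)
    (hv : ∀ i, v i ∈ S) (t : Term) : t.eval v ∈ S := by
  induction t with
  | var i => exact hv i
  | one => exact S.one_mem
  | mul s t hs ht => exact S.mul_mem hs ht
  | inv s hs => exact S.inv_mem hs
  | inf s t hs ht =>
    show s.eval v ⊓ t.eval v ∈ S
    rcases hG (s.eval v) (t.eval v) with h | h
    · rwa [inf_eq_left.2 h]
    · rwa [inf_eq_right.2 h]
  | sup s t hs ht =>
    show s.eval v ⊔ t.eval v ∈ S
    rcases hG (s.eval v) (t.eval v) with h | h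
    · rwa [sup_eq_right.2 h]
    · rwa [sup_eq_left.2 h]

lemma eval_good {G H : LGroup} (hG : Tot G) (S : Subgroup G.carrier) (v : ℕ → G.carrier)
    (hv : ∀ i, v i ∈ S) (t : Term) :
    ∃ F : Set G.carrier, F.Finite ∧ F ⊆ S ∧ ∀ f : G.carrier → H.carrier, Good F f →
      f (t.eval v) = t.eval (f ∘ v) := by
  have two : ∀ s t : Term,
      (∃ F : Set G.carrier, F.Finite ∧ F ⊆ S ∧ ∀ f : G.carrier → H.carrier, Good F f →
        f (s.eval v) = s.eval (f ∘ v)) →
      (∃ F : Set G.carrier, F.Finite ∧ F ⊆ S ∧ ∀ f : G.carrier → H.carrier, Good F f →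
        f (t.eval v) = t.eval (f ∘ v)) →
      ∃ F : Set G.carrier, F.Finite ∧ F ⊆ S ∧ ∀ f : G.carrier → H.carrier, Good F f →
        f (s.eval v) = s.eval (f ∘ v) ∧ f (t.eval v) = t.eval (f ∘ v) ∧
        f (s.eval v * t.eval v) = f (s.eval v) * f (t.eval v) ∧
        (s.eval v ≤ t.eval v → f (s.eval v) ≤ f (t.eval v)) ∧
        (t.eval v ≤ s.eval v → f (t.eval v) ≤ f (s.eval v)) := by
    rintro s t ⟨F1, h1, h1S, k1⟩ ⟨F2, h2, h2S, k2⟩
    have hs := eval_mem hG S v hv s
    have ht := eval_mem hG S v hv t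
    refine ⟨F1 ∪ F2 ∪ {s.eval v, t.eval v, (s.eval v)⁻¹ * t.eval v, (t.eval v)⁻¹ * s.eval v},
      (h1.union h2).union (Set.toFinite _), ?_, ?_⟩
    · refine Set.union_subset (Set.union_subset h1S h2S) ?_
      intro x hx
      simp only [Set.mem_insert_iff, Set.mem_singleton_iff] at hx
      rcases hx with rfl | rfl | rfl | rfl
      · exact hs
      · exact ht
      · exact S.mul_mem (S.inv_mem hs) ht
      · exact S.mul_mem (S.inv_mem ht) hs
    · intro f hf
      refine ⟨k1 f (hf.mono (by intro x hx; simp [hx])), k2 f (hf.mono (by intro x hx; simp [hx])),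
        hf.1 _ (by simp) _ (by simp), ?_, ?_⟩
      · intro h
        rcases h.lt_or_eq with h | h
        · exact (hf.lt (by simp) (by simp) h).le
        · rw [h]
      · intro h
        rcases h.lt_or_eq with h | h
        · exact (hf.lt (by simp) (by simp) h).le
        · rw [h]
  have one : ∀ (F : Set G.carrier) (f : G.carrier → H.carrier), Good F f → 1 ∈ F → f 1 = 1 := by
    intro F f hf h1
    have := hf.1 1 h1 1 h1
    rw [one_mul] at this
    exact left_eq_mul.1 this
  induction t with
  | var i => exact ⟨∅, Set.finite_empty, Set.empty_subset _, fun f _ => rfl⟩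
  | one =>
    refine ⟨{1}, Set.toFinite _, by simp, fun f hf => one _ f hf (by simp)⟩
  | mul s t hs ht =>
    obtain ⟨F, h1, h2, h3⟩ := two s t hs ht
    refine ⟨F, h1, h2, fun f hf => ?_⟩
    obtain ⟨a, b, c, -, -⟩ := h3 f hf
    show f (s.eval v * t.eval v) = s.eval (f ∘ v) * t.eval (f ∘ v)
    rw [c, a, b]
  | inv s hs =>
    obtain ⟨F, h1, h2, h3⟩ := hs
    have hs := eval_mem hG S v hv s
    refine ⟨F ∪ {1, s.eval v, (s.eval v)⁻¹}, h1.union (Set.toFinite _), ?_, fun f hf => ?_⟩
    · refine Set.union_subset h2 ?_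
      intro x hx
      simp only [Set.mem_insert_iff, Set.mem_singleton_iff] at hx
      rcases hx with rfl | rfl | rfl
      · exact S.one_mem
      · exact hs
      · exact S.inv_mem hs
    · show f (s.eval v)⁻¹ = (s.eval (f ∘ v))⁻¹
      rw [← h3 f (hf.mono Set.subset_union_left)]
      have := hf.1 (s.eval v) (by simp) (s.eval v)⁻¹ (by simp)
      rw [mul_inv_cancel, one _ f hf (by simp)] at this
      exact eq_inv_of_mul_eq_one_right this.symm
  | inf s t hs ht =>
    obtain ⟨F, h1, h2, h3⟩ := two s t hs ht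
    refine ⟨F, h1, h2, fun f hf => ?_⟩
    obtain ⟨a, b, -, c, d⟩ := h3 f hf
    show f (s.eval v ⊓ t.eval v) = s.eval (f ∘ v) ⊓ t.eval (f ∘ v)
    rw [← a, ← b]
    rcases hG (s.eval v) (t.eval v) with h | h
    · rw [inf_eq_left.2 h, inf_eq_left.2 (c h)]
    · rw [inf_eq_right.2 h, inf_eq_right.2 (d h)]
  | sup s t hs ht =>
    obtain ⟨F, h1, h2, h3⟩ := two s t hs ht
    refine ⟨F, h1, h2, fun f hf => ?_⟩
    obtain ⟨a, b, -, c, d⟩ := h3 f hf
    show f (s.eval v ⊔ t.eval v) = s.eval (f ∘ v) ⊔ t.eval (f ∘ v)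
    rw [← a, ← b]
    rcases hG (s.eval v) (t.eval v) with h | h
    · rw [sup_eq_right.2 h, sup_eq_right.2 (c h)]
    · rw [sup_eq_left.2 h, sup_eq_left.2 (d h)]

/-- The approximation lemma. -/
lemma approx {G H : LGroup} (hG : Tot G) (S : Subgroup G.carrier)
    (hS : ∀ F : Set G.carrier, F.Finite → F ⊆ S → ∃ f : G.carrier → H.carrier, Good F f)
    {e : Term × Term} (he : Holds H e) (v : ℕ → G.carrier) (hv : ∀ i, v i ∈ S) :
    e.1.eval v = e.2.eval v := by
  obtain ⟨F1, h1, h1S, k1⟩ := eval_good (H := H) hG S v hv e.1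
  obtain ⟨F2, h2, h2S, k2⟩ := eval_good (H := H) hG S v hv e.2
  have hs := eval_mem hG S v hv e.1
  have ht := eval_mem hG S v hv e.2
  obtain ⟨f, hf⟩ := hS (F1 ∪ F2 ∪ {e.1.eval v, e.2.eval v, (e.1.eval v)⁻¹ * e.2.eval v,
    (e.2.eval v)⁻¹ * e.1.eval v}) ((h1.union h2).union (Set.toFinite _)) (by
      refine Set.union_subset (Set.union_subset h1S h2S) ?_
      intro x hx
      simp only [Set.mem_insert_iff, Set.mem_singleton_iff] at hx
      rcases hx with rfl | rfl | rfl | rfl
      · exact hs
      · exact ht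
      · exact S.mul_mem (S.inv_mem hs) ht
      · exact S.mul_mem (S.inv_mem ht) hs)
  have key : f (e.1.eval v) = f (e.2.eval v) := by
    rw [k1 f (hf.mono (by intro x hx; simp [hx])), k2 f (hf.mono (by intro x hx; simp [hx]))]
    exact he _
  rcases hG.lt_or (e.1.eval v) (e.2.eval v) with h | h | h
  · exact absurd key (hf.lt (by simp) (by simp) h).ne
  · exact h
  · exact absurd key.symm (hf.lt (by simp) (by simp) h).ne

lemma approx_top {G H : LGroup} (hG : Tot G)
    (hS : ∀ F : Set G.carrier, F.Finite → ∃ f : G.carrier → H.carrier, Good F f)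
    {e : Term × Term} (he : Holds H e) : Holds G e := fun v =>
  approx hG ⊤ (fun F h _ => hS F h) he v (fun _ => Subgroup.mem_top _)

lemma eval_congr {G : LGroup} {n : ℕ} {v w : ℕ → G.carrier} (h : ∀ i < n, v i = w i) (t : Term)
    (ht : t.Below n) : t.eval v = t.eval w := by
  induction t with
  | var i => exact h i ht
  | one => rfl
  | mul s t hs ht' => simp only [Term.eval]; rw [hs ht.1, ht' ht.2]
  | inv s hs => simp only [Term.eval]; rw [hs ht]
  | inf s t hs ht' => simp only [Term.eval]; rw [hs ht.1, ht' ht.2]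
  | sup s t hs ht' => simp only [Term.eval]; rw [hs ht.1, ht' ht.2]

end approx

section clause

/-- the meet of a nonempty list of terms -/
def minT (t : Term) (l : List Term) : Term := l.foldr Term.inf t

lemma minT_le {G : LGroup} (v : ℕ → G.carrier) (t : Term) (l : List Term) (u : Term)
    (hu : u ∈ l) : (minT t l).eval v ≤ u.eval v := by
  induction l with
  | nil => simp at hu
  | cons a l ih =>
    show a.eval v ⊓ (minT t l).eval v ≤ _
    rcases List.mem_cons.1 hu with rfl | h
    · exact inf_le_left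
    · exact inf_le_right.trans (ih h)

lemma lt_minT {G : LGroup} (hG : Tot G) (v : ℕ → G.carrier) (t : Term) (l : List Term)
    (ht : 1 < t.eval v) (hl : ∀ u ∈ l, 1 < u.eval v) : 1 < (minT t l).eval v := by
  induction l with
  | nil => exact ht
  | cons a l ih =>
    show 1 < a.eval v ⊓ (minT t l).eval v
    have h1 := hl a (by simp)
    have h2 := ih (fun u hu => hl u (by simp [hu]))
    rcases hG (a.eval v) ((minT t l).eval v) with h | h
    · rwa [inf_eq_left.2 h]
    · rwa [inf_eq_right.2 h]

/-- A disjunction of inequalities is a law. -/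
lemma clause {G H : LGroup} (hG : Tot G) (hGH : ∀ e, Holds H e → Holds G e)
    {ι : Type} [Fintype ι] [Nonempty ι] (u : ι → Term)
    (hH : ∀ v : ℕ → H.carrier, ∃ i, (u i).eval v ≤ 1) (v : ℕ → G.carrier)
    (hv : ∀ i, 1 < (u i).eval v) : False := by
  classical
  obtain ⟨i0⟩ := ‹Nonempty ι›
  set l := (Finset.univ : Finset ι).toList.map u with hl
  have h1 : Holds H (Term.sup (minT (u i0) l) Term.one, Term.one) := by
    intro w
    obtain ⟨i, hi⟩ := hH w
    show (minT (u i0) l).eval w ⊔ 1 = 1
    refine sup_eq_right.2 ((minT_le w _ l (u i) ?_).trans hi)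
    simp [hl]
  have h2 := hGH _ h1 v
  change (minT (u i0) l).eval v ⊔ 1 = 1 at h2
  have h3 := lt_minT hG v (u i0) l (hv i0) (by
    intro w hw
    simp only [hl, List.mem_map] at hw
    obtain ⟨i, -, rfl⟩ := hw
    exact hv i)
  exact absurd (sup_eq_right.1 h2) (not_le_of_gt h3)

end clause

end Pool.Agent.Lib.MP_2301b5_al
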