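import Pool.Agent.Lib.MP_2301b5_al.Basic

namespace Pool.Agent.Lib.MP_2301b5_al

/-- The law of representable lattice-ordered groups. -/
def Rep (G : LGroup) : Prop := ∀ x g : G.carrier, (x ⊔ 1) ⊓ (g⁻¹ * (x⁻¹ ⊔ 1) * g) = 1

/-- Cones of compatible preorders. -/
structure Adm {G : LGroup} (P : Set G.carrier) : Prop where
  pos : ∀ x, 1 ≤ x → x ∈ P
  mul : ∀ x ∈ P, ∀ y ∈ P, x * y ∈ P
  conj : ∀ g, ∀ x ∈ P, g⁻¹ * x * g ∈ P
  inf : ∀ x ∈ P, ∀ y ∈ P, x ⊓ y ∈ P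

/-- Normal submonoids of the positive cone. -/
structure NM {G : LGroup} (W : Set G.carrier) : Prop where
  pos : ∀ x ∈ W, 1 ≤ x
  one : (1 : G.carrier) ∈ W
  mul : ∀ x ∈ W, ∀ y ∈ W, x * y ∈ W
  conj : ∀ g, ∀ x ∈ W, g⁻¹ * x * g ∈ W

lemma conj_pos {G : LGroup} (g : G.carrier) {x : G.carrier} (hx : 1 ≤ x) : 1 ≤ g⁻¹ * x * g := by
  have := mul_le_mul_left (mul_le_mul_right hx g⁻¹) g
  simpa using this

lemma perp_NM {G : LGroup} (T : Set G.carrier) (h1 : ∀ t ∈ T, 1 ≤ t)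
    (h2 : ∀ g, ∀ t ∈ T, g⁻¹ * t * g ∈ T) : NM {w | 1 ≤ w ∧ ∀ t ∈ T, w ⊓ t = 1} where
  pos x hx := hx.1
  one := ⟨le_rfl, fun t ht => inf_eq_left.2 (h1 t ht)⟩
  mul a ha b hb := by
    refine ⟨one_le_mul ha.1 hb.1, fun r hr => ?_⟩
    have e1 : r ≤ a * r := le_mul_of_one_le_left' ha.1
    calc a * b ⊓ r = a * b ⊓ (a * r ⊓ r) := by rw [inf_eq_right.2 e1]
      _ = a * (b ⊓ r) ⊓ r := by rw [mul_inf, inf_assoc]
      _ = 1 := by rw [hb.2 r hr, mul_one, ha.2 r hr]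
  conj g a ha := by
    refine ⟨conj_pos g ha.1, fun r hr => ?_⟩
    have := ha.2 _ (h2 g⁻¹ r hr)
    calc g⁻¹ * a * g ⊓ r = g⁻¹ * (a ⊓ (g⁻¹⁻¹ * r * g⁻¹)) * g := by
          rw [mul_inf, inf_mul]; congr 1; group
      _ = 1 := by rw [this]; group

lemma Adm.ext {G : LGroup} {P W : Set G.carrier} (hP : Adm P) (hW : NM W) :
    Adm {g | ∃ w ∈ W, g * w ∈ P} where
  pos x hx := ⟨1, hW.one, by simpa using hP.pos x hx⟩
  mul := by
    rintro x ⟨w, hw, hx⟩ y ⟨w', hw', hy⟩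
    refine ⟨y⁻¹ * w * y * w', hW.mul _ (hW.conj y w hw) _ hw', ?_⟩
    have := hP.mul _ hx _ hy
    have e : x * y * (y⁻¹ * w * y * w') = x * w * (y * w') := by group
    rwa [e]
  conj := by
    rintro g x ⟨w, hw, hx⟩
    refine ⟨g⁻¹ * w * g, hW.conj g w hw, ?_⟩
    have := hP.conj g _ hx
    have e : g⁻¹ * x * g * (g⁻¹ * w * g) = g⁻¹ * (x * w) * g := by group
    rwa [e]
  inf := by
    rintro x ⟨w, hw, hx⟩ y ⟨w', hw', hy⟩
    refine ⟨w * w', hW.mul _ hw _ hw', ?_⟩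
    rw [inf_mul]
    refine hP.inf _ ?_ _ ?_
    · rw [← mul_assoc]
      exact hP.mul _ hx _ (hP.pos _ (hW.pos _ hw'))
    · have e : y * (w * w') = y * w' * (w'⁻¹ * w * w') := by group
      rw [e]
      exact hP.mul _ hy _ (hP.pos _ (conj_pos _ (hW.pos _ hw)))

lemma exists_total {G : LGroup} (hG : Rep G) {d : G.carrier} (hd : ¬ 1 ≤ d) :
    ∃ P : Set G.carrier, Adm P ∧ d ∉ P ∧ ∀ f, f ∈ P ∨ f⁻¹ ∈ P := by
  obtain ⟨P, -, hP⟩ := zorn_subset_nonempty {P : Set G.carrier | Adm P ∧ d ∉ P} (by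
    intro c hc hch hne
    obtain ⟨P0, hP0⟩ := hne
    have two : ∀ x ∈ ⋃₀ c, ∀ y ∈ ⋃₀ c, ∃ P ∈ c, x ∈ P ∧ y ∈ P := by
      rintro x ⟨P1, h1, hx⟩ y ⟨P2, h2, hy⟩
      rcases hch.total h1 h2 with h | h
      · exact ⟨P2, h2, h hx, hy⟩
      · exact ⟨P1, h1, hx, h hy⟩
    refine ⟨⋃₀ c, ⟨⟨fun x hx => ⟨P0, hP0, (hc hP0).1.pos x hx⟩, ?_, ?_, ?_⟩, ?_⟩,
      fun s hs => Set.subset_sUnion_of_mem hs⟩
    · intro x hx y hy
      obtain ⟨P, h, h1, h2⟩ := two x hx y hy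
      exact ⟨P, h, (hc h).1.mul x h1 y h2⟩
    · rintro g x ⟨P, h, hx⟩
      exact ⟨P, h, (hc h).1.conj g x hx⟩
    · intro x hx y hy
      obtain ⟨P, h, h1, h2⟩ := two x hx y hy
      exact ⟨P, h, (hc h).1.inf x h1 y h2⟩
    · rintro ⟨P, h, hx⟩
      exact (hc h).2 hx) {x | 1 ≤ x}
    ⟨⟨fun x hx => hx, fun x hx y hy => one_le_mul hx hy, fun g x hx => conj_pos g hx,
      fun x hx y hy => le_inf hx hy⟩, hd⟩
  refine ⟨P, hP.prop.1, hP.prop.2, fun f => ?_⟩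
  by_contra hf
  rw [not_or] at hf
  have key : ∀ W : Set G.carrier, NM W → ∀ f, f ∉ P → f⁻¹ ⊔ 1 ∈ W → ∃ w ∈ W, d * w ∈ P := by
    intro W hW f hf hfW
    by_contra hcon
    have h1 : P ⊆ {g | ∃ w ∈ W, g * w ∈ P} := fun x hx => ⟨1, hW.one, by simpa using hx⟩
    have h2 := hP.le_of_ge (y := {g | ∃ w ∈ W, g * w ∈ P}) ⟨hP.prop.1.ext hW, hcon⟩ h1
    refine hf (h2 ⟨_, hfW, hP.prop.1.pos _ ?_⟩)
    rw [mul_sup]
    simp
  set T : Set G.carrier := {t | ∃ g, t = g⁻¹ * (f ⊔ 1) * g} with hT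
  have hT1 : ∀ t ∈ T, 1 ≤ t := by
    rintro t ⟨g, rfl⟩
    exact conj_pos g le_sup_right
  have hT2 : ∀ g, ∀ t ∈ T, g⁻¹ * t * g ∈ T := by
    rintro g t ⟨h, rfl⟩
    exact ⟨h * g, by group⟩
  have hW := perp_NM T hT1 hT2
  have hW2 := perp_NM _ hW.pos hW.conj
  obtain ⟨w, hw, h1⟩ := key _ hW f hf.1 ⟨le_sup_right, by
    rintro t ⟨g, rfl⟩
    have := hG f⁻¹ g
    rwa [inv_inv] at this⟩
  obtain ⟨w', hw', h2⟩ := key _ hW2 f⁻¹ hf.2 ⟨le_sup_right, by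
    intro t ht
    rw [inv_inv, inf_comm]
    exact ht.2 _ ⟨1, by group⟩⟩
  have h3 := hP.prop.1.inf _ h1 _ h2
  rw [← mul_inf, inf_comm, hw'.2 w hw, mul_one] at h3
  exact hP.prop.2 h3

lemma decomp0 {G : LGroup} (hG : Rep G) {d : G.carrier} (hd : ¬ 1 ≤ d) :
    ∃ (Q : LGroup) (π : G.carrier →* Q.carrier), Tot Q ∧ Function.Surjective π ∧
      (∀ x y, π (x ⊓ y) = π x ⊓ π y) ∧ (∀ x y, π (x ⊔ y) = π x ⊔ π y) ∧ π d ≠ 1 := by
  obtain ⟨P, hP, hdP, htot⟩ := exists_total hG hd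
  let K : Subgroup G.carrier :=
    { carrier := {x | x ∈ P ∧ x⁻¹ ∈ P}
      mul_mem' := fun {a b} ha hb => ⟨hP.mul _ ha.1 _ hb.1, by
        rw [mul_inv_rev]; exact hP.mul _ hb.2 _ ha.2⟩
      one_mem' := ⟨hP.pos _ le_rfl, hP.pos _ (by simp)⟩
      inv_mem' := fun {a} ha => ⟨ha.2, by rw [inv_inv]; exact ha.1⟩ }
  have hK : ∀ x, x ∈ K ↔ x ∈ P ∧ x⁻¹ ∈ P := fun x => Iff.rfl
  have : K.Normal := ⟨fun n hn g => by
    refine ⟨by simpa using hP.conj g⁻¹ n hn.1, ?_⟩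
    have := hP.conj g⁻¹ _ hn.2
    simpa [mul_assoc] using this⟩
  have hmk : ∀ x y : G.carrier, (x : G.carrier ⧸ K) = y → x ∈ P → y ∈ P := by
    intro x y h hx
    have := hP.mul _ hx _ ((hK _).1 (QuotientGroup.eq.1 h)).1
    simpa using this
  let C : PCone (G.carrier ⧸ K) :=
    { P := fun q => q ≠ 1 ∧ ∃ x ∈ P, (x : G.carrier ⧸ K) = q
      mul := by
        rintro _ _ ⟨h1, x, hx, rfl⟩ ⟨h2, y, hy, rfl⟩
        refine ⟨fun h => h1 ?_, x * y, hP.mul _ hx _ hy, rfl⟩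
        rw [QuotientGroup.eq_one_iff, hK]
        refine ⟨hx, hmk y _ ?_ hy⟩
        rw [QuotientGroup.mk_inv]
        exact eq_inv_of_mul_eq_one_right h
      conj := by
        rintro g _ ⟨h1, x, hx, rfl⟩
        obtain ⟨g, rfl⟩ := QuotientGroup.mk_surjective g
        refine ⟨fun h => h1 ?_, g⁻¹ * x * g, hP.conj _ _ hx, rfl⟩
        simpa [mul_assoc, inv_mul_eq_one] using h
      irr := fun h => h.1 rfl
      tri := by
        intro q hq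
        obtain ⟨x, rfl⟩ := QuotientGroup.mk_surjective q
        rcases htot x with h | h
        · exact Or.inl ⟨hq, x, h, rfl⟩
        · exact Or.inr ⟨by simpa using hq, x⁻¹, h, rfl⟩ }
  let π : G.carrier →* C.grp.carrier := QuotientGroup.mk' K
  have hle : ∀ x y, x⁻¹ * y ∈ P → π x ≤ π y := by
    intro x y h
    rw [C.le_iff]
    by_cases h1 : π x = π y
    · exact Or.inl h1
    · exact Or.inr ⟨fun h2 => h1 (inv_mul_eq_one.1 h2), _, h, rfl⟩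
  have hinf : ∀ x y, x⁻¹ * y ∈ P → π (x ⊓ y) = π x := by
    intro x y h
    refine le_antisymm (hle _ _ (hP.pos _ (by simp))) (hle _ _ ?_)
    rw [mul_inf, inv_mul_cancel]
    exact hP.inf _ (hP.pos _ le_rfl) _ h
  have hsup : ∀ x y, x⁻¹ * y ∈ P → π (x ⊔ y) = π y := by
    intro x y h
    refine le_antisymm (hle _ _ ?_) (hle _ _ (hP.pos _ (by simp)))
    rw [inv_sup, inf_mul, inv_mul_cancel]
    exact hP.inf _ h _ (hP.pos _ le_rfl)
  refine ⟨C.grp, π, C.tot, QuotientGroup.mk'_surjective K, ?_, ?_, ?_⟩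
  · intro x y
    rcases htot (x⁻¹ * y) with h | h
    · rw [hinf x y h, inf_eq_left.2 (hle x y h)]
    · have h' : y⁻¹ * x ∈ P := by simpa using h
      rw [inf_comm, hinf y x h', inf_eq_right.2 (hle y x h')]
  · intro x y
    rcases htot (x⁻¹ * y) with h | h
    · rw [hsup x y h, sup_eq_right.2 (hle x y h)]
    · have h' : y⁻¹ * x ∈ P := by simpa using h
      rw [sup_comm, hsup y x h', sup_eq_left.2 (hle y x h')]
  · intro h
    exact hdP ((hK d).1 ((QuotientGroup.eq_one_iff d).1 h)).1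

lemma eval_map {G Q : LGroup} (π : G.carrier →* Q.carrier)
    (h1 : ∀ x y, π (x ⊓ y) = π x ⊓ π y) (h2 : ∀ x y, π (x ⊔ y) = π x ⊔ π y)
    (v : ℕ → G.carrier) (t : Term) : π (t.eval v) = t.eval (π ∘ v) := by
  induction t with
  | var i => rfl
  | one => exact π.map_one
  | mul s t hs ht => simp only [Term.eval]; rw [map_mul, hs, ht]
  | inv s hs => simp only [Term.eval]; rw [map_inv, hs]
  | inf s t hs ht => simp only [Term.eval]; rw [h1, hs, ht]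
  | sup s t hs ht => simp only [Term.eval]; rw [h2, hs, ht]

/-- A law failing in a representable group fails in a totally ordered quotient. -/
lemma decomp {G : LGroup} (hG : Rep G) {e : Term × Term} (he : ¬ Holds G e) :
    ∃ Q : LGroup, Tot Q ∧ (∀ e', Holds G e' → Holds Q e') ∧ ¬ Holds Q e := by
  unfold Holds at he
  push Not at he
  obtain ⟨v, hv⟩ := he
  have : ∃ d : G.carrier, ¬ 1 ≤ d ∧ ∀ (Q : LGroup) (π : G.carrier →* Q.carrier),
      π (e.1.eval v) = π (e.2.eval v) → π d = 1 := by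
    by_cases h : e.1.eval v ≤ e.2.eval v
    · refine ⟨(e.2.eval v)⁻¹ * e.1.eval v, fun h' => hv (le_antisymm h (by simpa using h')), ?_⟩
      intro Q π h
      simp [h]
    · refine ⟨(e.1.eval v)⁻¹ * e.2.eval v, fun h' => h (by simpa using h'), ?_⟩
      intro Q π h
      simp [h]
  obtain ⟨d, hd, hd'⟩ := this
  obtain ⟨Q, π, hQ, hs, h1, h2, h3⟩ := decomp0 hG hd
  refine ⟨Q, hQ, fun e' he' w => ?_, fun h => h3 (hd' Q π ?_)⟩
  · choose w' hw' using fun i => hs (w i)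
    have : w = π ∘ w' := funext fun i => (hw' i).symm
    rw [this, ← eval_map π h1 h2, ← eval_map π h1 h2, he' w']
  · rw [eval_map π h1 h2, eval_map π h1 h2, h]

end Pool.Agent.Lib.MP_2301b5_al
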