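import Mathlib

namespace Pool.Agent.Lib.MP_2301b5_al

/-- A lattice-ordered group: a group with a lattice order invariant under left and right
multiplication. -/
structure LGroup where
  carrier : Type
  [grp : Group carrier]
  [lat : Lattice carrier]
  mul_left : ∀ x y z : carrier, x ≤ y → z * x ≤ z * y
  mul_right : ∀ x y z : carrier, x ≤ y → x * z ≤ y * z

attribute [instance] LGroup.grp LGroup.lat

/-- Terms in the signature (product, inverse, identity, meet, join), variables `x_0, x_1, ...`. -/
inductive Term where
  | var : ℕ → Term
  | one : Term
  | mul : Term → Term → Term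
  | inv : Term → Term
  | inf : Term → Term → Term
  | sup : Term → Term → Term

/-- The value of a term under an assignment of the variables. -/
def Term.eval {G : LGroup} (v : ℕ → G.carrier) : Term → G.carrier
  | .var i => v i
  | .one => 1
  | .mul s t => s.eval v * t.eval v
  | .inv s => (s.eval v)⁻¹
  | .inf s t => s.eval v ⊓ t.eval v
  | .sup s t => s.eval v ⊔ t.eval v

/-- The term uses only the first `n` variables `x_0, ..., x_(n-1)`. -/
def Term.Below (n : ℕ) : Term → Prop
  | .var i => i < n
  | .one => True
  | .mul s t => s.Below n ∧ t.Below n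
  | .inv s => s.Below n
  | .inf s t => s.Below n ∧ t.Below n
  | .sup s t => s.Below n ∧ t.Below n

/-- The equation `e.1 = e.2` is a law of `G`. -/
def Holds (G : LGroup) (e : Term × Term) : Prop :=
  ∀ v : ℕ → G.carrier, e.1.eval v = e.2.eval v

/-- The variety defined by a set of equations. -/
def Variety (S : Set (Term × Term)) : Set LGroup := {G | ∀ e ∈ S, Holds G e}

/-- The class is defined by equations in the first `n` variables, for some `n > 0`. -/
def FiniteRank (V : Set LGroup) : Prop :=
  ∃ n : ℕ, 0 < n ∧ ∃ S : Set (Term × Term),
    (∀ e ∈ S, e.1.Below n ∧ e.2.Below n) ∧ V = Variety S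

end Pool.Agent.Lib.MP_2301b5_al
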