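import Pool.Agent.Lib.MP_2301b5_al.Decomp

namespace Pool.Agent.Lib.MP_2301b5_al

/-- The Heisenberg group of a biadditive map. -/
@[ext] structure Hs {A B C : Type} [AddCommGroup A] [AddCommGroup B] [AddCommGroup C]
    (β : A →+ B →+ C) where
  a : A
  b : B
  c : C

section Hs
variable {A B C : Type} [AddCommGroup A] [AddCommGroup B] [AddCommGroup C] {β : A →+ B →+ C}

instance : Mul (Hs β) := ⟨fun x y => ⟨x.a + y.a, x.b + y.b, x.c + y.c + β x.a y.b⟩⟩
instance : One (Hs β) := ⟨⟨0, 0, 0⟩⟩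
instance : Inv (Hs β) := ⟨fun x => ⟨-x.a, -x.b, -x.c + β x.a x.b⟩⟩

@[simp] lemma Hs.mul_a (x y : Hs β) : (x * y).a = x.a + y.a := rfl
@[simp] lemma Hs.mul_b (x y : Hs β) : (x * y).b = x.b + y.b := rfl
@[simp] lemma Hs.mul_c (x y : Hs β) : (x * y).c = x.c + y.c + β x.a y.b := rfl
@[simp] lemma Hs.one_a : (1 : Hs β).a = 0 := rfl
@[simp] lemma Hs.one_b : (1 : Hs β).b = 0 := rfl
@[simp] lemma Hs.one_c : (1 : Hs β).c = 0 := rfl
@[simp] lemma Hs.inv_a (x : Hs β) : (x⁻¹).a = -x.a := rfl
@[simp] lemma Hs.inv_b (x : Hs β) : (x⁻¹).b = -x.b := rfl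
@[simp] lemma Hs.inv_c (x : Hs β) : (x⁻¹).c = -x.c + β x.a x.b := rfl

instance : Group (Hs β) := Group.ofLeftAxioms
  (fun x y z => by ext <;> simp <;> abel)
  (fun x => by ext <;> simp)
  (fun x => by ext <;> simp)

/-- Strict positive cone of a total order on an abelian group. -/
structure ACone (A : Type) [AddCommGroup A] where
  P : A → Prop
  add : ∀ x y, P x → P y → P (x + y)
  irr : ¬ P 0
  tri : ∀ x, x ≠ 0 → P x ∨ P (-x)

/-- The lexicographic cone. -/
def lexCone (β : A →+ B →+ C) (a : ACone A) (b : ACone B) (c : ACone C) : PCone (Hs β) where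
  P x := a.P x.a ∨ (x.a = 0 ∧ (b.P x.b ∨ (x.b = 0 ∧ c.P x.c)))
  mul x y hx hy := by
    rcases hx with hx | ⟨hx, hx'⟩
    · rcases hy with hy | ⟨hy, -⟩
      · exact Or.inl (a.add _ _ hx hy)
      · left; simpa [hy] using hx
    rcases hy with hy | ⟨hy, hy'⟩
    · left; simpa [hx] using hy
    refine Or.inr ⟨by simp [hx, hy], ?_⟩
    rcases hx' with hx' | ⟨hx', hx''⟩
    · rcases hy' with hy' | ⟨hy', -⟩
      · exact Or.inl (b.add _ _ hx' hy')
      · left; simpa [hy'] using hx'
    rcases hy' with hy' | ⟨hy', hy''⟩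
    · left; simpa [hx'] using hy'
    refine Or.inr ⟨by simp [hx', hy'], ?_⟩
    simpa [hx] using c.add _ _ hx'' hy''
  conj g x hx := by
    rcases hx with hx | ⟨hx, hx'⟩
    · left; simpa using hx
    refine Or.inr ⟨by simp [hx], ?_⟩
    rcases hx' with hx' | ⟨hx', hx''⟩
    · left; simpa using hx'
    refine Or.inr ⟨by simp [hx'], ?_⟩
    have : (g⁻¹ * x * g).c = x.c := by simp [hx, hx']; abel
    rwa [this]
  irr := by
    rintro (h | ⟨-, h | ⟨-, h⟩⟩)
    · exact a.irr h
    · exact b.irr h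
    · exact c.irr h
  tri x hx := by
    by_cases h1 : x.a = 0
    · by_cases h2 : x.b = 0
      · have h3 : x.c ≠ 0 := fun h3 => hx (by ext <;> simp [h1, h2, h3])
        rcases c.tri _ h3 with h | h
        · exact Or.inl (Or.inr ⟨h1, Or.inr ⟨h2, h⟩⟩)
        · exact Or.inr (Or.inr ⟨by simp [h1], Or.inr ⟨by simp [h2], by simpa [h1] using h⟩⟩)
      · rcases b.tri _ h2 with h | h
        · exact Or.inl (Or.inr ⟨h1, Or.inl h⟩)
        · exact Or.inr (Or.inr ⟨by simp [h1], Or.inl h⟩)
    · rcases a.tri _ h1 with h | h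
      · exact Or.inl (Or.inl h)
      · exact Or.inr (Or.inl h)

end Hs

/-- The usual cone of the integers. -/
def intCone : ACone ℤ where
  P x := 0 < x
  add _ _ hx hy := add_pos hx hy
  irr := lt_irrefl _
  tri x hx := by omega

/-- The integer Heisenberg group. -/
abbrev HZ : Type := Hs (AddMonoidHom.mul : ℤ →+ ℤ →+ ℤ)

/-- Its lexicographic cone. -/
def heisCone : PCone HZ := lexCone _ intCone intCone intCone

/-- The lexicographically ordered Heisenberg group. -/
noncomputable def Heis : LGroup := heisCone.grp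

lemma Heis.tot : Tot Heis := heisCone.tot

lemma Heis.one_lt (x : HZ) : (1 : Heis.carrier) < (x : Heis.carrier) ↔
    0 < x.a ∨ (x.a = 0 ∧ (0 < x.b ∨ (x.b = 0 ∧ 0 < x.c))) := heisCone.one_lt x

/-- The representability law as an equation. -/
def repLaw : Term × Term :=
  (.inf (.sup (.var 0) .one) (.mul (.mul (.inv (.var 1)) (.sup (.inv (.var 0)) .one)) (.var 1)),
    .one)

lemma rep_iff (G : LGroup) : Holds G repLaw ↔ Rep G := by
  constructor
  · intro h x g
    exact h (fun i => if i = 0 then x else g)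
  · intro h v
    exact h (v 0) (v 1)

lemma Tot.rep {G : LGroup} (hG : Tot G) : Rep G := by
  intro x g
  rcases hG x 1 with h | h
  · rw [sup_eq_right.2 h]
    exact inf_eq_left.2 (conj_pos g le_sup_right)
  · have : x⁻¹ ≤ 1 := by simpa using h
    rw [sup_eq_right.2 this]
    simp

/-- The commutator term. -/
def cm (s t : Term) : Term := .mul (.mul (.mul s t) (.inv s)) (.inv t)

/-- Commutators are central. -/
def nilLaw : Term × Term :=
  (.mul (cm (.var 0) (.var 1)) (.var 2), .mul (.var 2) (cm (.var 0) (.var 1)))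

lemma nil_heis : Holds Heis nilLaw := by
  intro v
  have : ∀ x y z : HZ, (x * y * x⁻¹ * y⁻¹) * z = z * (x * y * x⁻¹ * y⁻¹) := by
    intro x y z
    ext <;> simp
    ring
  exact this (v 0) (v 1) (v 2)

lemma nil_of_holds {G : LGroup} (h : Holds G nilLaw) (x y z : G.carrier) :
    Commute (x * y * x⁻¹ * y⁻¹) z :=
  h (fun i => if i = 0 then x else if i = 1 then y else z)

/-- The commutative law. -/
def commLaw : Term × Term := (.mul (.var 0) (.var 1), .mul (.var 1) (.var 0))

lemma comm_iff (G : LGroup) : Holds G commLaw ↔ ∀ x y : G.carrier, x * y = y * x := by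
  constructor
  · intro h x g
    exact h (fun i => if i = 0 then x else g)
  · intro h v
    exact h (v 0) (v 1)

/-- The trivial law. -/
def trivLaw : Term × Term := (.var 0, .one)

lemma triv_iff (G : LGroup) : Holds G trivLaw ↔ ∀ x : G.carrier, x = 1 := by
  constructor
  · intro h x
    exact h (fun _ => x)
  · intro h v
    exact h (v 0)

end Pool.Agent.Lib.MP_2301b5_al
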