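import Pool.Agent.Lib.MP_2301b5_al.Rank

namespace Pool.Agent.Lib.MP_2301b5_al

open Finset Polynomial Filter

lemma Hs.comm {A B C : Type} [AddCommGroup A] [AddCommGroup B] [AddCommGroup C]
    {β : A →+ B →+ C} (x y : Hs β) :
    x * y * x⁻¹ * y⁻¹ = ⟨0, 0, β x.a y.b - β y.a x.b⟩ := by
  ext <;> simp
  abel

/-- row variables -/
def tX (i : ℕ) : Term := .var (2 * i)
/-- column variables -/
def tY (j : ℕ) : Term := .var (2 * j + 1)
/-- sign -/
def sgn (s : Bool) (t : Term) : Term := if s then t else .inv t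
/-- tie difference -/
def tD (K k : ℕ) (s s' : Bool) : Term :=
  .mul (.mul (.mul (cm (tX k) (tY (Up K k))) (.inv (cm (tX (nx K k)) (tY (Lo K k)))))
    (sgn s (cm (tX 0) (tX k)))) (sgn s' (cm (tX 0) (tX (nx K k))))

/-- the clause -/
def cl (K : ℕ) : Fin (2 * K + 1) × (Fin 4 ⊕ Bool × Bool) → Term
  | (k, .inl r) => ![tX k, tY k, .mul (tX 0) (.inv (tY k)), cm (tX 0) (tY k)] r
  | (k, .inr s) => tD K k s.1 s.2

lemma ineq_aux {a W d d' b b' : ℤ} (ha : 0 < a) (hb : 0 ≤ b) (hb' : 0 ≤ b') (h1 : b ≤ a)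
    (h2 : b' ≤ a) (e1 : 0 < W + d + d') (e2 : 0 < W + d - d') (e3 : 0 < W - d + d')
    (e4 : 0 < W - d - d') : 0 < a * W + b * d - b' * d' := by
  rcases le_total 0 d with hd | hd <;> rcases le_total 0 d' with hd' | hd'
  · nlinarith [mul_pos ha e4, mul_nonneg hb hd, mul_nonneg (sub_nonneg.2 h2) hd',
      mul_nonneg ha.le hd]
  · nlinarith [mul_pos ha e3, mul_nonneg hb hd, mul_nonneg hb' (neg_nonneg.2 hd'),
      mul_nonneg ha.le hd, mul_nonneg ha.le (neg_nonneg.2 hd')]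
  · nlinarith [mul_pos ha e2, mul_nonneg (sub_nonneg.2 h1) (neg_nonneg.2 hd),
      mul_nonneg (sub_nonneg.2 h2) hd']
  · nlinarith [mul_pos ha e1, mul_nonneg (sub_nonneg.2 h1) (neg_nonneg.2 hd),
      mul_nonneg hb' (neg_nonneg.2 hd'), mul_nonneg ha.le (neg_nonneg.2 hd')]

lemma cl_heis {K : ℕ} (hK : 2 ≤ K) (v : ℕ → Heis.carrier) : ∃ i, (cl K i).eval v ≤ 1 := by
  by_contra hc
  have h : ∀ i, 1 < (cl K i).eval v := fun i => Heis.tot.not_le (fun h => hc ⟨i, h⟩)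
  set x : ℕ → HZ := fun i => v (2 * i) with hx
  set y : ℕ → HZ := fun i => v (2 * i + 1) with hy
  have h0 : ∀ i ≤ 2 * K, 0 ≤ (x i).a := by
    intro i hi
    have := (Heis.one_lt (x i)).1 (h (⟨i, by omega⟩, .inl 0))
    omega
  have h1 : ∀ i ≤ 2 * K, 0 ≤ (y i).a := by
    intro i hi
    have := (Heis.one_lt (y i)).1 (h (⟨i, by omega⟩, .inl 1))
    omega
  have h2 : ∀ i ≤ 2 * K, (y i).a ≤ (x 0).a := by
    intro i hi
    have := (Heis.one_lt (x 0 * (y i)⁻¹)).1 (h (⟨i, by omega⟩, .inl 2))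
    simp only [Hs.mul_a, Hs.inv_a] at this
    omega
  have h3 : ∀ i ≤ 2 * K, 0 < (x 0).a * (y i).b - (y i).a * (x 0).b := by
    intro i hi
    have := (Heis.one_lt (x 0 * y i * (x 0)⁻¹ * (y i)⁻¹)).1 (h (⟨i, by omega⟩, .inl 3))
    rw [Hs.comm] at this
    simpa using this
  have ha : 0 < (x 0).a := by
    have e0 := h0 0 (by omega)
    have e1 := h1 0 (by omega)
    have e2 := h2 0 (by omega)
    have e3 := h3 0 (by omega)
    by_contra hn
    have e4 : (x 0).a = 0 := by omega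
    have e5 : (y 0).a = 0 := by omega
    simp [e4, e5] at e3
  refine cyc hK (fun i => (x i).a) (fun j => (x 0).a * (y j).b - (y j).a * (x 0).b) h0 h3 ?_
  intro k hk
  set c1 := x k * y (Up K k) * (x k)⁻¹ * (y (Up K k))⁻¹ with hc1
  set c2 := x (nx K k) * y (Lo K k) * (x (nx K k))⁻¹ * (y (Lo K k))⁻¹ with hc2
  set d1 := x 0 * x k * (x 0)⁻¹ * (x k)⁻¹ with hd1
  set d2 := x 0 * x (nx K k) * (x 0)⁻¹ * (x (nx K k))⁻¹ with hd2
  have e1 := (Heis.one_lt (c1 * c2⁻¹ * d1 * d2)).1 (h (⟨k, by omega⟩, .inr (true, true)))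
  have e2 := (Heis.one_lt (c1 * c2⁻¹ * d1 * d2⁻¹)).1 (h (⟨k, by omega⟩, .inr (true, false)))
  have e3 := (Heis.one_lt (c1 * c2⁻¹ * d1⁻¹ * d2)).1 (h (⟨k, by omega⟩, .inr (false, true)))
  have e4 := (Heis.one_lt (c1 * c2⁻¹ * d1⁻¹ * d2⁻¹)).1 (h (⟨k, by omega⟩, .inr (false, false)))
  rw [Hs.comm] at hc1 hc2 hd1 hd2
  have f1 : c1.a = 0 ∧ c1.b = 0 ∧ c2.a = 0 ∧ c2.b = 0 ∧ d1.a = 0 ∧ d1.b = 0 ∧ d2.a = 0 ∧
      d2.b = 0 := by simp [hc1, hc2, hd1, hd2]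
  obtain ⟨g1, g2, g3, g4, g5, g6, g7, g8⟩ := f1
  simp only [Hs.mul_a, Hs.mul_b, Hs.mul_c, Hs.inv_a, Hs.inv_b, Hs.inv_c, g1, g2, g3, g4, g5, g6,
    g7, g8, neg_zero, add_zero, map_zero, lt_irrefl, false_or, true_and] at e1 e2 e3 e4
  have key := ineq_aux (W := c1.c - c2.c) (d := d1.c) (d' := d2.c) ha (h1 _ (Up_le (k := k)))
    (h1 _ (Lo_le (k := k))) (h2 _ Up_le) (h2 _ Lo_le) (by linarith) (by linarith) (by linarith)
    (by linarith)
  simp only [hc1, hc2, hd1, hd2, AddMonoidHom.mul_apply] at key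
  linear_combination key

/-- basis vectors -/
def ev (K i : ℕ) : Vec K := fun t => if (t : ℕ) = i then 1 else 0

lemma ev_eq {K i : ℕ} (hi : i ≤ 2 * K) : ev K i = Pi.single (⟨i, by omega⟩ : Fin (2 * K + 1)) 1 := by
  funext t
  simp [ev, Pi.single_apply, Fin.ext_iff]

lemma X_pow_pos (n : ℕ) : polyCone.P (X ^ n) := by
  filter_upwards [ev_pos] with N hN
  simpa using pow_pos hN n

lemma bet_ev {K i j : ℕ} (hi : i ≤ 2 * K) (hj : j ≤ 2 * K) :
    bet K (ev K i) (ev K j) = (X ^ (Ex K i + Fx K j), Bm K i j) := by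
  rw [bet_apply, ev_eq hi, ev_eq hj, mon_single, mon_single, pow_add]
  simp [Pi.single_apply, Ef, Ff]

lemma cl_Gp {K : ℕ} (hK : 2 ≤ K) : ∃ v : ℕ → (Gp K).carrier, ∀ i, 1 < (cl K i).eval v := by
  let x : ℕ → Hs (bet K) := fun i => ⟨ev K i, 0, 0⟩
  let y : ℕ → Hs (bet K) := fun i => ⟨0, ev K i, 0⟩
  let v : ℕ → (Gp K).carrier := fun n => if n % 2 = 0 then x (n / 2) else y (n / 2)
  have hx : ∀ i, (tX i).eval v = x i := by
    intro i
    show (if 2 * i % 2 = 0 then x (2 * i / 2) else y (2 * i / 2)) = x i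
    rw [if_pos (by omega)]; congr 1; omega
  have hy : ∀ i, (tY i).eval v = y i := by
    intro i
    show (if (2 * i + 1) % 2 = 0 then x ((2 * i + 1) / 2) else y ((2 * i + 1) / 2)) = y i
    rw [if_neg (by omega)]; congr 1; omega
  have hxy : ∀ i ≤ 2 * K, ∀ j ≤ 2 * K, (cm (tX i) (tY j)).eval v =
      (⟨0, 0, (X ^ (Ex K i + Fx K j), Bm K i j)⟩ : Hs (bet K)) := by
    intro i hi j hj
    show (tX i).eval v * (tY j).eval v * ((tX i).eval v)⁻¹ * ((tY j).eval v)⁻¹ = _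
    rw [hx, hy]
    refine (Hs.comm (x i) (y j)).trans ?_
    simp [x, y, bet_ev hi hj]
  have hxx : ∀ s i, (sgn s (cm (tX 0) (tX i))).eval v = 1 := by
    intro s i
    have : (cm (tX 0) (tX i)).eval v = 1 := by
      show (tX 0).eval v * (tX i).eval v * ((tX 0).eval v)⁻¹ * ((tX i).eval v)⁻¹ = _
      rw [hx, hx]
      refine (Hs.comm (x 0) (x i)).trans ?_
      simp only [x, map_zero, sub_zero]
      rfl
    cases s
    · show ((cm (tX 0) (tX i)).eval v)⁻¹ = 1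
      rw [this, inv_one]
    · exact this
  refine ⟨v, ?_⟩
  rintro ⟨k, r | s⟩
  · have hk : (k : ℕ) ≤ 2 * K := by omega
    fin_cases r
    · show 1 < (tX k).eval v
      rw [hx]
      refine (Gp.one_lt K _).2 (Or.inl ?_)
      simp only [x]
      rw [ev_eq hk, mon_single]
      exact X_pow_pos _
    · show 1 < (tY k).eval v
      rw [hy]
      refine (Gp.one_lt K _).2 (Or.inr ⟨rfl, Or.inl ?_⟩)
      simp only [y]
      rw [ev_eq hk, mon_single]
      exact X_pow_pos _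
    · show 1 < (tX 0).eval v * ((tY k).eval v)⁻¹
      rw [hx, hy]
      refine (Gp.one_lt K (x 0 * (y k)⁻¹)).2 (Or.inl ?_)
      simp only [x, y, Hs.mul_a, Hs.inv_a, neg_zero, add_zero]
      rw [ev_eq (Nat.zero_le _), mon_single]
      exact X_pow_pos _
    · show 1 < (cm (tX 0) (tY k)).eval v
      rw [hxy _ (Nat.zero_le _) _ hk]
      exact (Gp.one_lt K _).2 (Or.inr ⟨rfl, Or.inr ⟨rfl, Or.inl (X_pow_pos _)⟩⟩)
  · have hk : (k : ℕ) ≤ 2 * K := by omega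
    show 1 < (cm (tX k) (tY (Up K k))).eval v * ((cm (tX (nx K k)) (tY (Lo K k))).eval v)⁻¹ *
      (sgn s.1 (cm (tX 0) (tX k))).eval v * (sgn s.2 (cm (tX 0) (tX (nx K k)))).eval v
    rw [hxx, hxx, mul_one, mul_one, hxy _ hk _ Up_le, hxy _ nx_le _ Lo_le, ← tie_eq hk]
    refine (Gp.one_lt K ((⟨0, 0, (X ^ (Ex K k + Fx K (Up K k)), Bm K k (Up K k))⟩ : Hs (bet K)) *
      (⟨0, 0, (X ^ (Ex K k + Fx K (Up K k)), Bm K (nx K k) (Lo K k))⟩ : Hs (bet K))⁻¹)).2 ?_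
    have e1 : Bm K k (Up K k) = 1 := if_pos rfl
    have e2 : Bm K (nx K k) (Lo K k) = 0 := if_neg (Lo_ne_Up_nx hK)
    refine Or.inr ⟨by simp, Or.inr ⟨by simp, Or.inr ⟨by simp, by simp [e1, e2]⟩⟩⟩

theorem infinite_rank : ¬ FiniteRank (Variety {e | Holds Heis e}) := by
  rintro ⟨n, -, S, hS, hV⟩
  have hH : Heis ∈ Variety S := by
    rw [← hV]; exact fun e he => he
  have hG : Gp (n + 2) ∈ Variety {e | Holds Heis e} := by
    rw [hV]
    exact fun e he => Gp_holds (n := n) (by omega) (by omega) (hS e he) (hH e he)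
  obtain ⟨v, hv⟩ := cl_Gp (K := n + 2) (by omega)
  exact clause (Gp.tot _) hG (cl (n + 2)) (cl_heis (by omega)) v hv

end Pool.Agent.Lib.MP_2301b5_al
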