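import Pool.Agent.Lib.MP_2301b5_al.Heis

namespace Pool.Agent.Lib.MP_2301b5_al

/-- Gordan's alternative for abelian groups. -/
lemma gordan {ι : Type} (s : Finset ι) : ∀ (A : Type) [AddCommGroup A] (y : ι → A),
    (∀ c : ι → ℕ, ∑ i ∈ s, c i • y i = 0 → ∀ i ∈ s, c i = 0) →
    ∃ l : A →+ ℚ, ∀ i ∈ s, 0 < l (y i) := by
  classical
  induction s using Finset.induction_on with
  | empty => intro A _ y _; exact ⟨0, by simp⟩
  | insert a s ha ih =>
    intro A _ y hy
    have hg : ∀ (n : ℕ) (c : ι → ℕ), n • y a + ∑ i ∈ s, c i • y i = 0 →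
        n = 0 ∧ ∀ i ∈ s, c i = 0 := by
      intro n c h
      have h1 : ∀ i ∈ s, Function.update c a n i = c i := fun i hi =>
        Function.update_of_ne (fun h : i = a => ha (h ▸ hi)) _ _
      have := hy (Function.update c a n) (by
        rw [Finset.sum_insert ha, Function.update_self,
          Finset.sum_congr rfl (fun i hi => by rw [h1 i hi])]
        exact h)
      refine ⟨by simpa using this a (by simp), fun i hi => ?_⟩
      rw [← h1 i hi]
      exact this i (by simp [hi])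
    by_cases hq : ∀ c : ι → ℕ, ∑ i ∈ s, c i •
        (QuotientAddGroup.mk' (AddSubgroup.zmultiples (y a)) (y i)) = 0 → ∀ i ∈ s, c i = 0
    · obtain ⟨μ, hμ⟩ := ih _ _ hq
      have hinj : Function.Injective (zmultiplesHom A (y a)) := by
        rw [injective_iff_map_eq_zero]
        intro n hn
        have h1 : n.natAbs • y a = 0 := by
          rcases Int.natAbs_eq n with h | h
          · rw [← natCast_zsmul, ← h]; exact hn
          · have : (n.natAbs : ℤ) = -n := by omega
            rw [← natCast_zsmul, this, neg_smul, neg_eq_zero]; exact hn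
        have := (hg n.natAbs 0 (by simpa using h1)).1
        omega
      obtain ⟨ν, hν⟩ := (Module.Baer.of_divisible ℚ).extension_property_addMonoidHom
        (zmultiplesHom A (y a)) hinj (Int.castAddHom ℚ)
      have hν1 : ν (y a) = 1 := by
        have := DFunLike.congr_fun hν 1
        simpa using this
      have hev : ∀ᶠ M : ℕ in Filter.atTop, ∀ i ∈ s,
          0 < (M : ℚ) * μ (QuotientAddGroup.mk' _ (y i)) + ν (y i) := by
        rw [Filter.eventually_all_finset]
        intro i hi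
        obtain ⟨M, hM⟩ := exists_nat_gt (-ν (y i) / μ (QuotientAddGroup.mk' _ (y i)))
        filter_upwards [Filter.eventually_ge_atTop M] with M' hM'
        have h1 := hμ i hi
        rw [div_lt_iff₀ h1] at hM
        have : (M : ℚ) ≤ M' := by exact_mod_cast hM'
        nlinarith
      obtain ⟨M, hM⟩ := hev.exists
      refine ⟨M • μ.comp (QuotientAddGroup.mk' _) + ν, fun i hi => ?_⟩
      rcases Finset.mem_insert.1 hi with rfl | hi
      · have : QuotientAddGroup.mk' (AddSubgroup.zmultiples (y i)) (y i) = 0 :=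
          (QuotientAddGroup.eq_zero_iff _).2 (AddSubgroup.mem_zmultiples _)
        simp only [AddMonoidHom.add_apply, AddMonoidHom.smul_apply, AddMonoidHom.comp_apply, this,
          map_zero, smul_zero, hν1]
        norm_num
      · have := hM i hi
        simpa only [AddMonoidHom.add_apply, AddMonoidHom.smul_apply, AddMonoidHom.comp_apply,
          nsmul_eq_mul] using this
    · obtain ⟨l, hl⟩ := ih A y (fun c hc => (hg 0 c (by simpa using hc)).2)
      refine ⟨l, fun i hi => ?_⟩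
      rcases Finset.mem_insert.1 hi with rfl | hi
      swap
      · exact hl i hi
      push Not at hq
      obtain ⟨c, hc, j, hj, hcj⟩ := hq
      have h1 : QuotientAddGroup.mk' (AddSubgroup.zmultiples (y i)) (∑ k ∈ s, c k • y k) = 0 := by
        rw [map_sum]; simpa only [map_nsmul] using hc
      obtain ⟨r, hr⟩ := AddSubgroup.mem_zmultiples_iff.1 ((QuotientAddGroup.eq_zero_iff _).1 h1)
      have h2 : 0 < r := by
        by_contra h
        have h3 : ((-r).toNat : ℤ) = -r := by omega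
        exact hcj ((hg (-r).toNat c (by
          rw [← natCast_zsmul, h3, ← hr, neg_smul, neg_add_cancel])).2 j hj)
      have h3 : (r : ℚ) * l (y i) = ∑ k ∈ s, (c k : ℚ) * l (y k) := by
        have := congrArg l hr
        rw [map_zsmul, map_sum] at this
        simpa only [map_nsmul, zsmul_eq_mul, nsmul_eq_mul] using this
      have h4 : 0 < ∑ k ∈ s, (c k : ℚ) * l (y k) :=
        Finset.sum_pos' (fun k hk => mul_nonneg (Nat.cast_nonneg _) (hl k hk).le)
          ⟨j, hj, mul_pos (by exact_mod_cast Nat.pos_of_ne_zero hcj) (hl j hj)⟩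
      rw [← h3] at h4
      exact (mul_pos_iff_of_pos_left (by exact_mod_cast h2)).1 h4

lemma one_lt_zpow_of {G : LGroup} {z : G.carrier} (hz : 1 < z) {n : ℤ} (hn : 0 < n) :
    1 < z ^ n := by
  obtain ⟨k, rfl⟩ := Int.eq_ofNat_of_zero_le hn.le
  rw [zpow_natCast]
  exact one_lt_pow' hz (by omega)

lemma one_le_zpow_of {G : LGroup} {z : G.carrier} (hz : 1 < z) {n : ℤ} (hn : 0 ≤ n) :
    1 ≤ z ^ n := by
  rcases hn.lt_or_eq with h | h
  · exact (one_lt_zpow_of hz h).le
  · simp [← h]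

/-- Weinberg's theorem for totally ordered groups. -/
lemma abelian_approx {A H : LGroup} (hA : Tot A) (hc : ∀ x y : A.carrier, x * y = y * x)
    {z : H.carrier} (hz : 1 < z) {e : Term × Term} (he : Holds H e) : Holds A e := by
  classical
  refine approx_top hA (fun F hF => ?_) he
  let _ : CommGroup A.carrier := { A.grp with mul_comm := hc }
  obtain ⟨l, hl⟩ := gordan (hF.toFinset.filter (fun x => 1 < x)) (Additive A.carrier)
    (fun x => Additive.ofMul x) (by
      intro c hc' i hi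
      by_contra hci
      have h1 : ∏ k ∈ hF.toFinset.filter (fun x => 1 < x), k ^ c k = 1 := by
        have := congrArg Additive.toMul hc'
        simpa [toMul_sum] using this
      rw [← Finset.mul_prod_erase _ _ hi] at h1
      have h2 : 1 ≤ ∏ k ∈ (hF.toFinset.filter (fun x => 1 < x)).erase i, k ^ c k := by
        refine Finset.prod_induction _ (fun x => 1 ≤ x) (fun a b ha hb => one_le_mul ha hb)
          le_rfl (fun k hk => one_le_pow_of_one_le' ?_ _)
        exact (Finset.mem_filter.1 (Finset.mem_of_mem_erase hk)).2.le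
      have h3 : 1 < i ^ c i := one_lt_pow' (Finset.mem_filter.1 hi).2 hci
      have h4 := one_lt_mul_of_lt_of_le' h3 h2
      exact h4.ne' h1)
  set D : ℕ := ∏ x ∈ hF.toFinset, (l (Additive.ofMul x)).den with hD
  have hDpos : 0 < D := Finset.prod_pos (fun x _ => Rat.den_pos _)
  have hint : ∀ x ∈ F, ∃ n : ℤ, (D : ℚ) * l (Additive.ofMul x) = n := by
    intro x hx
    obtain ⟨k, hk⟩ : (l (Additive.ofMul x)).den ∣ D :=
      Finset.dvd_prod_of_mem _ (hF.mem_toFinset.2 hx)
    refine ⟨k * (l (Additive.ofMul x)).num, ?_⟩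
    rw [hk]
    push_cast
    rw [← Rat.den_mul_eq_num]
    ring
  refine ⟨fun x => z ^ ⌊(D : ℚ) * l (Additive.ofMul x)⌋, ?_, ?_⟩
  · intro x hx y hy
    obtain ⟨n, hn⟩ := hint x hx
    obtain ⟨m, hm⟩ := hint y hy
    show z ^ ⌊(D : ℚ) * l (Additive.ofMul x + Additive.ofMul y)⌋ =
      z ^ ⌊(D : ℚ) * l (Additive.ofMul x)⌋ * z ^ ⌊(D : ℚ) * l (Additive.ofMul y)⌋
    rw [map_add, mul_add, hn, hm, ← Int.cast_add, Int.floor_intCast, Int.floor_intCast,
      Int.floor_intCast, zpow_add]
  · intro x hx h1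
    obtain ⟨n, hn⟩ := hint x hx
    have h2 := hl x (Finset.mem_filter.2 ⟨hF.mem_toFinset.2 hx, h1⟩)
    have h3 : (0 : ℚ) < n := by
      rw [← hn]; exact mul_pos (by exact_mod_cast hDpos) h2
    show 1 < z ^ ⌊(D : ℚ) * l (Additive.ofMul x)⌋
    rw [hn, Int.floor_intCast]
    exact one_lt_zpow_of hz (by exact_mod_cast h3)

lemma comm_zpow {G : Type} [Group G] {X U Z : G} (hZ : ∀ g, Commute Z g)
    (h : X * U = Z * U * X) (a p : ℤ) : X ^ a * U ^ p = Z ^ (a * p) * U ^ p * X ^ a := by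
  have h1 : X * U * X⁻¹ = Z * U := by rw [h]; group
  have h2 : X * U ^ p * X⁻¹ = Z ^ p * U ^ p := by
    rw [← conj_zpow, h1, (hZ U).mul_zpow]
  have h3 : (U ^ p)⁻¹ * X * (U ^ p)⁻¹⁻¹ = Z ^ p * X := by
    have h4 : X * U ^ p = Z ^ p * U ^ p * X := by rw [← h2]; group
    have h5 : Z ^ p * U ^ p = U ^ p * Z ^ p := ((hZ (U ^ p)).zpow_left p).eq
    rw [inv_inv, mul_assoc, h4, h5]; group
  have h4 : (U ^ p)⁻¹ * X ^ a * (U ^ p)⁻¹⁻¹ = Z ^ (a * p) * X ^ a := by
    rw [← conj_zpow, h3, ((hZ X).zpow_left p).mul_zpow, ← zpow_mul, mul_comm p a]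
  have h5 : Z ^ (a * p) * U ^ p = U ^ p * Z ^ (a * p) := ((hZ (U ^ p)).zpow_left _).eq
  rw [h5, mul_assoc, ← h4]; group

lemma nonab_approx0 {Q : LGroup} (hn : Holds Q nilLaw) {a b : Q.carrier} (ha : 1 < a)
    (hb : 1 < b) (hc : 1 < a * b * a⁻¹ * b⁻¹) {e : Term × Term} (he : Holds Q e) :
    Holds Heis e := by
  set c := a * b * a⁻¹ * b⁻¹ with hcdef
  have hZ : ∀ g, Commute c g := nil_of_holds hn a b
  have hab : a * b = c * b * a := by rw [hcdef]; group
  have hcb : ∀ d : ℤ, 1 < c ^ d * b := by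
    intro d
    have h1 := comm_zpow hZ hab d 1
    rw [mul_one, zpow_one] at h1
    have h2 : c ^ d * b = (a ^ d)⁻¹⁻¹ * b * (a ^ d)⁻¹ := by rw [inv_inv, h1]; group
    rw [h2]
    refine lt_of_le_of_ne (conj_pos _ hb.le) (fun h => hb.ne ?_)
    calc (1 : Q.carrier) = (a ^ d)⁻¹ * 1 * a ^ d := by group
      _ = b := by rw [h]; group
  have hcb' : ∀ d p : ℤ, 0 < p → 1 < c ^ d * b ^ p := by
    intro d p hp
    have : c ^ d * b ^ p = c ^ d * b * b ^ (p - 1) := by group
    rw [this]
    exact one_lt_mul_of_lt_of_le' (hcb d) (one_le_zpow_of hb (by omega))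
  refine approx_top Heis.tot (fun F hF => ?_) he
  obtain ⟨k, hk⟩ : ∃ k : ℕ, ∀ x ∈ F, 0 < (k : ℤ) + Hs.b x := by
    have : ∀ᶠ k : ℕ in Filter.atTop, ∀ x ∈ F, 0 < (k : ℤ) + Hs.b x := by
      rw [Filter.eventually_all_finite hF]
      intro x _
      filter_upwards [Filter.eventually_ge_atTop ((Hs.b x).natAbs + 1)] with k hk
      omega
    exact this.exists
  set X := a * b ^ (k : ℤ) with hX
  have hXb : X * b = c * b * X := by
    rw [hX, ← mul_assoc, ← hab]; group
  have hX1 : 1 < X := one_lt_mul_of_lt_of_le' ha (one_le_zpow_of hb (by omega))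
  refine ⟨fun x : HZ => c ^ x.c * b ^ x.b * X ^ x.a, ?_, ?_⟩
  · intro (x : HZ) _ (y : HZ) _
    show c ^ (x.c + y.c + x.a * y.b) * b ^ (x.b + y.b) * X ^ (x.a + y.a) =
      (c ^ x.c * b ^ x.b * X ^ x.a) * (c ^ y.c * b ^ y.b * X ^ y.a)
    have h1 := comm_zpow hZ hXb x.a y.b
    have h2 : ∀ (n : ℤ) g, g * c ^ n = c ^ n * g := fun n g => ((hZ g).zpow_left n).eq.symm
    calc _ = c ^ x.c * c ^ y.c * (c ^ (x.a * y.b) * b ^ x.b) * b ^ y.b * X ^ x.a * X ^ y.a := by
          simp only [zpow_add, mul_assoc]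
      _ = c ^ x.c * c ^ y.c * b ^ x.b * (c ^ (x.a * y.b) * b ^ y.b * X ^ x.a) * X ^ y.a := by
          rw [← h2 (x.a * y.b) (b ^ x.b)]; simp only [mul_assoc]
      _ = c ^ x.c * (c ^ y.c * (b ^ x.b * X ^ x.a)) * b ^ y.b * X ^ y.a := by
          rw [← h1]; simp only [mul_assoc]
      _ = _ := by rw [← h2 y.c (b ^ x.b * X ^ x.a)]; simp only [mul_assoc]
  · intro (x : HZ) hx h1
    show 1 < c ^ x.c * b ^ x.b * X ^ x.a
    rcases (Heis.one_lt x).1 h1 with h | ⟨h, h' | ⟨h', h''⟩⟩
    · have e1 : c ^ x.c * b ^ x.b * X ^ x.a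
          = (c ^ x.c * b ^ x.b * a * (c ^ x.c * b ^ x.b)⁻¹) * (c ^ x.c * b ^ ((k : ℤ) + x.b))
            * X ^ (x.a - 1) := by
        have : X ^ x.a = X * X ^ (x.a - 1) := by group
        rw [this]
        nth_rewrite 1 [hX]
        group
      rw [e1]
      refine one_lt_mul_of_lt_of_le' (one_lt_mul_of_le_of_lt' ?_ (hcb' _ _ (hk x hx)))
        (one_le_zpow_of hX1 (by omega))
      have := conj_pos (c ^ x.c * b ^ x.b)⁻¹ ha.le
      rwa [inv_inv] at this
    · rw [h, zpow_zero, mul_one]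
      exact hcb' _ _ h'
    · rw [h, h', zpow_zero, zpow_zero, mul_one, mul_one]
      exact one_lt_zpow_of hc h''

lemma nonab_approx {Q : LGroup} (hQ : Tot Q) (hn : Holds Q nilLaw) (hc : ¬ Holds Q commLaw)
    {e : Term × Term} (he : Holds Q e) : Holds Heis e := by
  rw [comm_iff] at hc
  push Not at hc
  obtain ⟨a, b, hab⟩ := hc
  have h1 : ∀ a b : Q.carrier, ¬ Commute a b → ∃ a', 1 < a' ∧ ¬ Commute a' b := by
    intro a b hab
    rcases hQ.lt_or 1 a with h | h | h
    · exact ⟨a, h, hab⟩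
    · exact absurd (h ▸ Commute.one_left b) hab
    · exact ⟨a⁻¹, by simpa using h, fun h' => hab (by simpa using h'.inv_left)⟩
  obtain ⟨a, ha, hab⟩ := h1 a b hab
  obtain ⟨b, hb, hab⟩ := h1 b a (fun h => hab h.symm)
  rcases hQ.lt_or 1 (a * b * a⁻¹ * b⁻¹) with h | h | h
  · exact nonab_approx0 hn ha hb h he
  · refine absurd ?_ hab
    show b * a = a * b
    calc b * a = (a * b * a⁻¹ * b⁻¹) * (b * a) := by rw [← h, one_mul]
      _ = a * b := by group
  · refine nonab_approx0 hn hb ha ?_ he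
    have : b * a * b⁻¹ * a⁻¹ = (a * b * a⁻¹ * b⁻¹)⁻¹ := by group
    rw [this]
    exact one_lt_inv'.2 h

theorem proper_finite (S : Set (Term × Term)) (hS : Variety S ⊂ Variety {e | Holds Heis e}) :
    FiniteRank (Variety S) := by
  have hrep : ∀ G ∈ Variety S, Rep G := fun G hG =>
    (rep_iff G).1 (hS.1 hG _ ((rep_iff _).2 Heis.tot.rep))
  have hcomm : ∀ G ∈ Variety S, Holds G commLaw := by
    intro G hG
    by_contra h
    obtain ⟨Q, hQ, h1, h2⟩ := decomp (hrep G hG) h
    refine hS.2 (fun G' hG' e he => hG' e ?_)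
    exact nonab_approx hQ (h1 _ (hS.1 hG _ nil_heis)) h2 (h1 _ (hG e he))
  by_cases htriv : ∀ G ∈ Variety S, Holds G trivLaw
  · refine ⟨1, one_pos, {trivLaw}, ?_, ?_⟩
    · rintro e rfl
      exact ⟨Nat.zero_lt_one, trivial⟩
    · ext G
      constructor
      · rintro hG e rfl
        exact htriv G hG
      · intro hG e _ v
        have := (triv_iff G).1 (hG _ rfl)
        rw [this (e.1.eval v), this (e.2.eval v)]
  · push Not at htriv
    obtain ⟨G0, hG0, h0⟩ := htriv
    obtain ⟨Q0, hQ0, h1, h2⟩ := decomp (hrep G0 hG0) h0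
    obtain ⟨z, hz⟩ : ∃ z : Q0.carrier, 1 < z := by
      rw [triv_iff] at h2
      push Not at h2
      obtain ⟨z, hz⟩ := h2
      rcases hQ0.lt_or 1 z with h | h | h
      · exact ⟨z, h⟩
      · exact absurd h.symm hz
      · exact ⟨z⁻¹, by simpa using h⟩
    refine ⟨2, two_pos, {commLaw}, ?_, ?_⟩
    · rintro e rfl
      exact ⟨⟨Nat.zero_lt_two, Nat.one_lt_two⟩, ⟨Nat.one_lt_two, Nat.zero_lt_two⟩⟩
    · ext G
      constructor
      · rintro hG e rfl
        exact hcomm G hG
      · intro hG e he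
        have hc := hG _ rfl
        have hr : Rep G := by
          intro x g
          rw [(comm_iff G).1 hc g⁻¹, inv_mul_cancel_right]
          exact oneLePart_inf_leOnePart_eq_one x
        by_contra h
        obtain ⟨Q, hQ, h3, h4⟩ := decomp hr h
        exact h4 (abelian_approx hQ ((comm_iff Q).1 (h3 _ hc)) hz (h1 _ (hG0 e he)))

end Pool.Agent.Lib.MP_2301b5_al
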