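import Mathlib

namespace Pool.Agent.Lib.MP_2301b5_al

open Finset

/-- a simple permutation of `0, ..., 2K-1` -/
def sg (K k : ℕ) : ℕ := if k % 2 = 1 then k / 2 else K + k / 2
/-- row exponents -/
def Ex (K i : ℕ) : ℕ :=
  3 ^ (2 * K) * i + ∑ k ∈ range (2 * K), (if k < i then 1 else 0) * 3 ^ k
/-- column exponents -/
def Fx (K c : ℕ) : ℕ :=
  3 ^ (2 * K) * c + ∑ k ∈ range (2 * K), (if sg K k < c then 1 else 0) * 3 ^ k
/-- column of the upper cell of tie `k` -/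
def Up (K k : ℕ) : ℕ := if k < 2 * K then sg K k + 1 else 0
/-- column of the lower cell of tie `k` -/
def Lo (K k : ℕ) : ℕ := if k < 2 * K then sg K k else 2 * K
/-- row of the lower cell of tie `k` -/
def nx (K k : ℕ) : ℕ := if k < 2 * K then k + 1 else 0

lemma digits (m : ℕ) (d d' : ℕ → ℕ) (hd : ∀ j, d j ≤ 2) (hd' : ∀ j, d' j ≤ 2) : ∀ a a' : ℕ,
    3 ^ m * a + ∑ k ∈ range m, d k * 3 ^ k = 3 ^ m * a' + ∑ k ∈ range m, d' k * 3 ^ k →
    a = a' ∧ ∀ j < m, d j = d' j := by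
  induction m with
  | zero => intro a a' h; simpa using h
  | succ m ih =>
    intro a a' h
    rw [sum_range_succ, sum_range_succ] at h
    obtain ⟨h1, h2⟩ := ih (3 * a + d m) (3 * a' + d' m) (by
      rw [pow_succ] at h
      linear_combination h)
    have := hd m
    have := hd' m
    refine ⟨by omega, fun j hj => ?_⟩
    rcases Nat.lt_succ_iff_lt_or_eq.1 hj with h3 | rfl
    · exact h2 j h3
    · omega

lemma Ex_add_Fx (K i c : ℕ) : Ex K i + Fx K c = 3 ^ (2 * K) * (i + c) +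
    ∑ k ∈ range (2 * K), ((if k < i then 1 else 0) + (if sg K k < c then 1 else 0)) * 3 ^ k := by
  simp only [Ex, Fx, add_mul, sum_add_distrib]
  ring

lemma Up_le {K k : ℕ} : Up K k ≤ 2 * K := by
  unfold Up sg; split_ifs <;> omega

lemma Lo_le {K k : ℕ} : Lo K k ≤ 2 * K := by
  unfold Lo sg; split_ifs <;> omega

lemma nx_le {K k : ℕ} : nx K k ≤ 2 * K := by
  unfold nx; split_ifs <;> omega

lemma Lo_ne_Up {K k : ℕ} (hK : 2 ≤ K) : Lo K k ≠ Up K k := by
  unfold Lo Up; split_ifs <;> omega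

lemma Lo_ne_Up_nx {K k : ℕ} (hK : 2 ≤ K) : Lo K k ≠ Up K (nx K k) := by
  unfold Lo Up nx sg; split_ifs <;> omega

lemma tie_eq {K k : ℕ} (hk : k ≤ 2 * K) :
    Ex K k + Fx K (Up K k) = Ex K (nx K k) + Fx K (Lo K k) := by
  rw [Ex_add_Fx, Ex_add_Fx]
  congr 1
  · congr 1
    unfold Up Lo nx; split_ifs <;> omega
  · refine sum_congr rfl (fun j hj => ?_)
    have := mem_range.1 hj
    congr 1
    unfold Up Lo nx sg; split_ifs <;> omega

lemma tie_aux {K i c i' c' : ℕ} (hK : 2 ≤ K) (hi' : i' ≤ 2 * K) (hc : c ≤ 2 * K)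
    (hlt : i < i') (h : Ex K i + Fx K c = Ex K i' + Fx K c') :
    (c = Up K i ∧ i' = nx K i ∧ c' = Lo K i) ∨ (c' = Up K i' ∧ i = nx K i' ∧ c = Lo K i') := by
  rw [Ex_add_Fx, Ex_add_Fx] at h
  obtain ⟨h1, h2⟩ := digits _ _ _ (fun j => by split_ifs <;> omega)
    (fun j => by split_ifs <;> omega) _ _ h
  have a1 := h2 i (by omega)
  by_cases h3 : i' = i + 1
  · left
    unfold Up Lo nx
    split_ifs at a1 ⊢ <;> omega
  · right
    have a2 := h2 (i + 1) (by omega)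
    have a3 := h2 0 (by omega)
    have a4 := h2 (2 * K - 1) (by omega)
    have b1 : c' ≤ sg K i ∧ sg K i < c := by split_ifs at a1 <;> omega
    have b2 : c' ≤ sg K (i + 1) ∧ sg K (i + 1) < c := by split_ifs at a2 <;> omega
    have b3 : c' < K ∧ K < c := by
      unfold sg at b1 b2; split_ifs at b1 b2 <;> omega
    have b4 : sg K 0 = K := by unfold sg; simp
    have b5 : sg K (2 * K - 1) = K - 1 := by unfold sg; split_ifs <;> omega
    rw [b4] at a3
    rw [b5] at a4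
    have b6 : i = 0 := by split_ifs at a3 <;> omega
    have b7 : i' = 2 * K := by split_ifs at a4 <;> omega
    unfold Up Lo nx
    split_ifs <;> omega

lemma tie_cases {K i c i' c' : ℕ} (hK : 2 ≤ K) (hi : i ≤ 2 * K) (hi' : i' ≤ 2 * K)
    (hc : c ≤ 2 * K) (hc' : c' ≤ 2 * K) (h : Ex K i + Fx K c = Ex K i' + Fx K c') :
    (i = i' ∧ c = c') ∨ (c = Up K i ∧ i' = nx K i ∧ c' = Lo K i) ∨
      (c' = Up K i' ∧ i = nx K i' ∧ c = Lo K i') := by
  rcases lt_trichotomy i i' with h1 | h1 | h1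
  · exact Or.inr (tie_aux hK hi' hc h1 h)
  · left
    rw [Ex_add_Fx, Ex_add_Fx] at h
    obtain ⟨h2, -⟩ := digits _ _ _ (fun j => by split_ifs <;> omega)
      (fun j => by split_ifs <;> omega) _ _ h
    omega
  · exact Or.inr (tie_aux hK hi hc' h1 h.symm).symm

lemma Ex_inj (K : ℕ) : Function.Injective (Ex K) := fun _ _ h =>
  (digits _ _ _ (fun j => by split_ifs <;> omega) (fun j => by split_ifs <;> omega) _ _ h).1

lemma Fx_inj (K : ℕ) : Function.Injective (Fx K) := fun _ _ h =>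
  (digits _ _ _ (fun j => by split_ifs <;> omega) (fun j => by split_ifs <;> omega) _ _ h).1

/-- the exponent of tie `k` -/
def vl (K k : ℕ) : ℕ := Ex K k + Fx K (Up K k)

lemma vl_inj {K k k' : ℕ} (hK : 2 ≤ K) (hk : k ≤ 2 * K) (hk' : k' ≤ 2 * K)
    (h : vl K k = vl K k') : k = k' := by
  rcases tie_cases hK hk hk' Up_le Up_le h with h1 | ⟨-, h1, h2⟩ | ⟨-, h1, h2⟩
  · exact h1.1
  · rw [h1] at h2; exact absurd h2.symm (Lo_ne_Up_nx hK)
  · rw [h1] at h2; exact absurd h2.symm (Lo_ne_Up_nx hK)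

/-- a bound for all tie exponents -/
def Mx (K : ℕ) : ℕ := ∑ k ∈ range (2 * K + 1), vl K k

lemma vl_le {K k : ℕ} (hk : k ≤ 2 * K) : vl K k ≤ Mx K :=
  single_le_sum (f := vl K) (fun _ _ => Nat.zero_le _) (mem_range.2 (by omega))

/-- the tie-breaking matrix -/
def Bm (K i j : ℕ) : ℤ := if j = Up K i then 1 else 0

lemma solve {K : ℕ} (hK : 2 ≤ K) (N : ℤ) (hN : 0 < N) (ψ η0 : ℕ → ℤ)
    (hΛ : ∑ k ∈ range (2 * K + 1),
      (ψ k * η0 (Up K k) - ψ (nx K k) * η0 (Lo K k)) * N ^ (Mx K - vl K k) ≠ 0) :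
    ∃ (θ : ℤ) (u η g : ℕ → ℤ), 0 < θ ∧ ∀ i ≤ 2 * K, ∀ j ≤ 2 * K,
      g (Ex K i + Fx K j) = u i * N ^ Fx K j - θ * Bm K i j + ψ i * η j := by
  classical
  set r : ℕ → ℤ := fun k => ψ k * η0 (Up K k) - ψ (nx K k) * η0 (Lo K k) with hr
  set w : ℕ → ℤ := fun k => N ^ (Mx K - vl K k) with hw
  set Λ : ℤ := ∑ k ∈ range (2 * K + 1), r k * w k with hΛdef
  set Z : ℤ := ∑ k ∈ range (2 * K + 1), w k with hZ
  set y : ℕ → ℤ := fun k => w k * (Λ ^ 2 - Λ * Z * r k) with hy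
  have hsum : ∑ k ∈ range (2 * K + 1), y k = 0 := by
    have : ∀ k, y k = Λ ^ 2 * w k - Λ * Z * (r k * w k) := fun k => by simp only [hy]; ring
    simp only [this, sum_sub_distrib, ← mul_sum]
    rw [← hZ, ← hΛdef]; ring
  set s : ℕ → ℤ := fun i => -∑ k ∈ range i, y k with hs
  have hs1 : ∀ k ≤ 2 * K, s k - s (nx K k) = y k := by
    intro k hk
    unfold nx
    split_ifs with h
    · simp only [hs, sum_range_succ]; ring
    · have : k = 2 * K := by omega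
      subst this
      rw [sum_range_succ] at hsum
      simp only [hs, range_zero, sum_empty]
      linear_combination -hsum
  set θ : ℤ := N ^ Mx K * Λ ^ 2 with hθ
  set η : ℕ → ℤ := fun j => N ^ Mx K * Λ * Z * η0 j with hη
  set h : ℕ → ℕ → ℤ := fun i j => s i * N ^ Ex K i * N ^ Fx K j - θ * Bm K i j + ψ i * η j with hh
  have htie : ∀ k ≤ 2 * K, h k (Up K k) = h (nx K k) (Lo K k) := by
    intro k hk
    have e1 : Bm K k (Up K k) = 1 := if_pos rfl
    have e2 : Bm K (nx K k) (Lo K k) = 0 := if_neg (Lo_ne_Up_nx hK)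
    have e3 : N ^ Ex K k * N ^ Fx K (Up K k) = N ^ vl K k := by rw [← pow_add]; rfl
    have e4 : N ^ Ex K (nx K k) * N ^ Fx K (Lo K k) = N ^ vl K k := by
      rw [← pow_add, ← tie_eq hk]; rfl
    have e5 : N ^ Mx K = N ^ vl K k * w k := by
      simp only [hw]; rw [← pow_add]; congr 1; have := vl_le hk; omega
    have e6 := hs1 k hk
    simp only [hh, e1, e2, mul_assoc (s _), e3, e4, hθ, hη, e5]
    simp only [hy, hr] at e6
    linear_combination N ^ vl K k * e6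
  refine ⟨θ, fun i => s i * N ^ Ex K i, η, fun n =>
    if hx : ∃ p : ℕ × ℕ, p.1 ≤ 2 * K ∧ p.2 ≤ 2 * K ∧ Ex K p.1 + Fx K p.2 = n then
      h hx.choose.1 hx.choose.2 else 0, mul_pos (pow_pos hN _) (by positivity), ?_⟩
  intro i hi j hj
  have hx : ∃ p : ℕ × ℕ, p.1 ≤ 2 * K ∧ p.2 ≤ 2 * K ∧ Ex K p.1 + Fx K p.2 = Ex K i + Fx K j :=
    ⟨(i, j), hi, hj, rfl⟩
  show dite _ _ _ = h i j
  rw [dif_pos hx]
  obtain ⟨h1, h2, h3⟩ := hx.choose_spec
  generalize hx.choose = p at h1 h2 h3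
  rcases tie_cases hK h1 hi h2 hj h3 with ⟨e1, e2⟩ | ⟨e1, e2, e3⟩ | ⟨e1, e2, e3⟩
  · rw [e1, e2]
  · rw [e1, e2, e3]; exact htie _ h1
  · rw [e1, e2, e3]; exact (htie _ hi).symm

lemma prod_sg (K : ℕ) (f : ℕ → ℚ) :
    ∏ k ∈ range (2 * K), f (sg K k) = ∏ k ∈ range (2 * K), f k := by
  refine prod_nbij' (sg K) (fun c => if c < K then 2 * c + 1 else 2 * (c - K)) ?_ ?_ ?_ ?_
    (fun _ _ => rfl)
  all_goals
    intro k hk
    simp only [mem_range, sg] at hk ⊢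
    split_ifs <;> omega

/-- the cyclic cancellation -/
lemma cyc {K : ℕ} (hK : 2 ≤ K) (a κ : ℕ → ℤ) (ha : ∀ i ≤ 2 * K, 0 ≤ a i)
    (hκ : ∀ i ≤ 2 * K, 0 < κ i)
    (h : ∀ k ≤ 2 * K, a (nx K k) * κ (Lo K k) < a k * κ (Up K k)) : False := by
  have hpos : ∀ i ≤ 2 * K, 0 < a i := by
    intro i hi
    have h1 := h i hi
    have h2 := mul_nonneg (ha _ (nx_le (K := K) (k := i))) (hκ _ (Lo_le (K := K) (k := i))).le
    exact (mul_pos_iff_of_pos_right (hκ _ Up_le)).1 (h2.trans_lt h1)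
  have tel : ∀ (f : ℕ → ℤ), (∀ i ≤ 2 * K, 0 < f i) → ∀ n ≤ 2 * K,
      ∏ k ∈ range n, ((f (k + 1) : ℚ) / f k) = f n / f 0 := by
    intro f hf n
    induction n with
    | zero =>
      intro _
      have : (f 0 : ℚ) ≠ 0 := by exact_mod_cast (hf 0 (by omega)).ne'
      simp [this]
    | succ n ih =>
      intro hn
      rw [prod_range_succ, ih (by omega)]
      have : (f n : ℚ) ≠ 0 := by exact_mod_cast (hf n (by omega)).ne'
      field_simp
  have h1 : ∏ k ∈ range (2 * K), ((a (k + 1) : ℚ) / a k) ≤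
      ∏ k ∈ range (2 * K), ((κ (sg K k + 1) : ℚ) / κ (sg K k)) := by
    refine prod_le_prod (fun k hk => ?_) (fun k hk => ?_)
    · have hk' := mem_range.1 hk
      exact div_nonneg (by exact_mod_cast ha _ (by omega)) (by exact_mod_cast ha _ (by omega))
    · have hk' := mem_range.1 hk
      have h2 := h k hk'.le
      simp only [nx, Lo, Up, if_pos hk'] at h2
      have h3 : sg K k ≤ 2 * K := by unfold sg; split_ifs <;> omega
      rw [div_le_div_iff₀ (by exact_mod_cast hpos _ hk'.le) (by exact_mod_cast hκ _ h3)]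
      rw [mul_comm (κ _ : ℚ)]
      exact_mod_cast h2.le
  rw [prod_sg K (fun c => (κ (c + 1) : ℚ) / κ c), tel a hpos _ le_rfl, tel κ hκ _ le_rfl,
    div_le_div_iff₀ (by exact_mod_cast hpos _ (by omega)) (by exact_mod_cast hκ _ (by omega))]
    at h1
  have h2 := h (2 * K) le_rfl
  simp only [nx, Lo, Up, lt_irrefl, if_false] at h2
  have h3 : a (2 * K) * κ 0 ≤ κ (2 * K) * a 0 := by exact_mod_cast h1
  linarith [mul_comm (κ (2 * K)) (a 0)]

end Pool.Agent.Lib.MP_2301b5_al
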