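import Pool.Agent.Lib.MP_2301b5_al.Proper
import Pool.Agent.Lib.MP_2301b5_al.Ties

namespace Pool.Agent.Lib.MP_2301b5_al

open Finset Polynomial Filter

/-- vectors as polynomials -/
noncomputable def mon {n : ℕ} (e : Fin n → ℕ) : (Fin n → ℤ) →+ ℤ[X] where
  toFun a := ∑ i, monomial (e i) (a i)
  map_zero' := by simp
  map_add' a b := by simp [sum_add_distrib]

lemma mon_apply {n : ℕ} (e : Fin n → ℕ) (a : Fin n → ℤ) :
    mon e a = ∑ i, monomial (e i) (a i) := rfl

lemma mon_ne_zero {n : ℕ} {e : Fin n → ℕ} (he : Function.Injective e) {a : Fin n → ℤ}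
    (ha : a ≠ 0) : mon e a ≠ 0 := by
  intro h
  apply ha
  funext i
  have := congrArg (fun p => p.coeff (e i)) h
  simp only [mon_apply, finsetSum_coeff, coeff_monomial, he.eq_iff, coeff_zero] at this
  simpa using this

lemma mon_eval {n : ℕ} (e : Fin n → ℕ) (a : Fin n → ℤ) (N : ℤ) :
    (mon e a).eval N = ∑ i, a i * N ^ e i := by
  simp [mon_apply, eval_finsetSum]

lemma mon_single {n : ℕ} (e : Fin n → ℕ) (i : Fin n) :
    mon e (Pi.single i 1) = X ^ e i := by
  rw [mon_apply, sum_eq_single i]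
  · simp [X_pow_eq_monomial]
  · intro j _ hj
    simp [Pi.single_eq_of_ne hj]
  · simp

lemma ev_ne {p : ℤ[X]} (hp : p ≠ 0) : ∀ᶠ N : ℕ in hyperfilter ℕ, p.eval (N : ℤ) ≠ 0 := by
  refine hyperfilter_le_cofinite ?_
  have := (finite_setOfPred_isRoot hp).preimage (f := fun N : ℕ => (N : ℤ))
    (Nat.cast_injective.injOn)
  simpa [mem_cofinite, Set.compl_ofPred] using this

lemma ev_pos : ∀ᶠ N : ℕ in hyperfilter ℕ, (0 : ℤ) < N := by
  have := ev_ne (p := X) X_ne_zero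
  filter_upwards [this] with N hN
  simp only [eval_X] at hN
  omega

/-- eventually positive polynomials -/
noncomputable def polyCone : ACone ℤ[X] where
  P p := ∀ᶠ N : ℕ in hyperfilter ℕ, 0 < p.eval (N : ℤ)
  add p q hp hq := by
    filter_upwards [hp, hq] with N h1 h2
    rw [eval_add]; exact add_pos h1 h2
  irr h := by simpa using h.exists
  tri p hp := by
    rw [← Ultrafilter.eventually_or]
    filter_upwards [ev_ne hp] with N hN
    rw [eval_neg]
    omega

/-- cone on vectors -/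
noncomputable def vecCone {n : ℕ} (e : Fin n → ℕ) (he : Function.Injective e) :
    ACone (Fin n → ℤ) where
  P a := polyCone.P (mon e a)
  add a b ha hb := by rw [map_add]; exact polyCone.add _ _ ha hb
  irr h := by rw [map_zero] at h; exact polyCone.irr h
  tri a ha := by rw [map_neg]; exact polyCone.tri _ (mon_ne_zero he ha)

/-- cone on the centre -/
noncomputable def cenCone : ACone (ℤ[X] × ℤ) where
  P x := polyCone.P x.1 ∨ (x.1 = 0 ∧ 0 < x.2)
  add x y hx hy := by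
    rcases hx with hx | ⟨hx, hx'⟩
    · rcases hy with hy | ⟨hy, -⟩
      · exact Or.inl (polyCone.add _ _ hx hy)
      · left; simpa [hy] using hx
    · rcases hy with hy | ⟨hy, hy'⟩
      · left; simpa [hx] using hy
      · exact Or.inr ⟨by simp [hx, hy], add_pos hx' hy'⟩
  irr := by
    rintro (h | ⟨-, h⟩)
    · exact polyCone.irr h
    · exact lt_irrefl _ h
  tri x hx := by
    by_cases h : x.1 = 0
    · have : x.2 ≠ 0 := fun h' => hx (Prod.ext h h')
      rcases lt_or_gt_of_ne this with h1 | h1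
      · exact Or.inr (Or.inr ⟨by simp [h], by simpa using h1⟩)
      · exact Or.inl (Or.inr ⟨h, h1⟩)
    · rcases polyCone.tri _ h with h1 | h1
      · exact Or.inl (Or.inl h1)
      · exact Or.inr (Or.inl h1)

/-- vectors -/
abbrev Vec (K : ℕ) : Type := Fin (2 * K + 1) → ℤ

/-- row exponents on `Fin` -/
def Ef (K : ℕ) : Fin (2 * K + 1) → ℕ := fun i => Ex K i
/-- column exponents on `Fin` -/
def Ff (K : ℕ) : Fin (2 * K + 1) → ℕ := fun i => Fx K i

lemma Ef_inj (K : ℕ) : Function.Injective (Ef K) := fun _ _ h => Fin.ext (Ex_inj K h)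
lemma Ff_inj (K : ℕ) : Function.Injective (Ff K) := fun _ _ h => Fin.ext (Fx_inj K h)

/-- the biadditive map -/
noncomputable def bet (K : ℕ) : Vec K →+ Vec K →+ ℤ[X] × ℤ :=
  AddMonoidHom.mk' (fun a => AddMonoidHom.mk'
    (fun b => (mon (Ef K) a * mon (Ff K) b, ∑ i, ∑ j, a i * b j * Bm K i j))
    (fun b b' => by simp [mul_add, add_mul, sum_add_distrib]))
    (fun a a' => by
      refine AddMonoidHom.ext (fun b => ?_)
      simp [add_mul, sum_add_distrib])

lemma bet_apply (K : ℕ) (a b : Vec K) :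
    bet K a b = (mon (Ef K) a * mon (Ff K) b, ∑ i, ∑ j, a i * b j * Bm K i j) := rfl

/-- the cone of the test group -/
noncomputable def gCone (K : ℕ) : PCone (Hs (bet K)) :=
  lexCone _ (vecCone _ (Ef_inj K)) (vecCone _ (Ff_inj K)) cenCone

/-- the test group -/
noncomputable def Gp (K : ℕ) : LGroup := (gCone K).grp

lemma Gp.tot (K : ℕ) : Tot (Gp K) := (gCone K).tot

lemma Gp.one_lt (K : ℕ) (x : Hs (bet K)) : (1 : (Gp K).carrier) < (x : (Gp K).carrier) ↔
    polyCone.P (mon (Ef K) x.a) ∨ (x.a = 0 ∧ (polyCone.P (mon (Ff K) x.b) ∨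
      (x.b = 0 ∧ (polyCone.P x.c.1 ∨ (x.c.1 = 0 ∧ 0 < x.c.2))))) := (gCone K).one_lt x

/-- hyperplane subgroups -/
def hyp (K : ℕ) (ψ : Vec K) : Subgroup (Hs (bet K)) where
  carrier := {x | ∑ i, ψ i * x.a i = 0}
  mul_mem' {x y} hx hy := by
    simp only [Set.mem_ofPred_eq, Hs.mul_a, Pi.add_apply, mul_add, sum_add_distrib] at *
    rw [hx, hy, add_zero]
  one_mem' := by simp
  inv_mem' {x} hx := by
    simp only [Set.mem_ofPred_eq, Hs.inv_a, Pi.neg_apply, mul_neg, sum_neg_distrib] at *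
    rw [hx, neg_zero]

lemma large (A B : ℤ) (hA : 0 < A) : ∀ᶠ T : ℕ in atTop, 0 < (T : ℤ) * A + B := by
  filter_upwards [eventually_ge_atTop (B.natAbs + 1)] with T hT
  have h1 : (B.natAbs : ℤ) + 1 ≤ T := by exact_mod_cast hT
  have h2 : -B ≤ B.natAbs := by omega
  nlinarith

lemma hyp_good {K : ℕ} (hK : 2 ≤ K) {ψ : Vec K} (hψ : ψ ≠ 0) (F : Set (Gp K).carrier)
    (hF : F.Finite) (hFS : ∀ x ∈ F, ∑ i, ψ i * Hs.a x i = 0) : ∃ f : (Gp K).carrier → Heis.carrier, Good F f := by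
  classical
  obtain ⟨i0, hi0⟩ := Function.ne_iff.1 hψ
  set ψ' : ℕ → ℤ := fun i => if h : i < 2 * K + 1 then ψ ⟨i, h⟩ else 0 with hψ'
  have hψe : ∀ i : Fin (2 * K + 1), ψ' i = ψ i := fun i => dif_pos i.2
  set η0 : ℕ → ℤ := fun j => if j = Up K i0 then 1 else 0 with hη0
  set r : ℕ → ℤ := fun k => ψ' k * η0 (Up K k) - ψ' (nx K k) * η0 (Lo K k) with hr
  have hΛ : mon (fun k : Fin (2 * K + 1) => Mx K - vl K k) (fun k => r k) ≠ 0 := by
    refine mon_ne_zero (fun k k' h => Fin.ext (vl_inj hK (by omega) (by omega) ?_)) ?_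
    · have h1 := vl_le (K := K) (k := k) (by omega)
      have h2 := vl_le (K := K) (k := k') (by omega)
      omega
    · intro h
      have := congrFun h i0
      simp only [hr, hη0, if_neg (Lo_ne_Up hK), hψe, if_true, Pi.zero_apply] at this
      exact hi0 (by simpa using this)
  have hev : ∀ᶠ N : ℕ in hyperfilter ℕ, ∀ x ∈ F,
      (polyCone.P (mon (Ef K) (Hs.a x)) → 0 < (mon (Ef K) (Hs.a x)).eval (N : ℤ)) ∧
      (polyCone.P (mon (Ff K) (Hs.b x)) → 0 < (mon (Ff K) (Hs.b x)).eval (N : ℤ)) ∧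
      (polyCone.P (Hs.c x).1 → 0 < (Hs.c x).1.eval (N : ℤ)) := by
    rw [eventually_all_finite hF]
    intro x _
    have : ∀ p : ℤ[X], ∀ᶠ N : ℕ in hyperfilter ℕ, polyCone.P p → 0 < p.eval (N : ℤ) := by
      intro p
      by_cases h : polyCone.P p
      · filter_upwards [h] with N hN _ using hN
      · exact Eventually.of_forall (fun N h' => absurd h' h)
    exact (this _).and ((this _).and (this _))
  obtain ⟨N, hN1, hN2, hN3⟩ := (hev.and (ev_pos.and (ev_ne hΛ))).exists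
  rw [mon_eval, Fin.sum_univ_eq_sum_range (fun k => r k * (N : ℤ) ^ (Mx K - vl K k))] at hN3
  obtain ⟨θ, u, η, g, hθ, hg⟩ := solve hK N hN2 ψ' η0 hN3
  set γ : ℤ[X] →ₗ[ℤ] ℤ := Polynomial.lsum (fun n => g n • LinearMap.id) with hγ
  have hγm : ∀ n c, γ (monomial n c) = c * g n := by
    intro n c
    simp [hγ, mul_comm]
  set U : Vec K → ℤ := fun a => ∑ i, a i * u i with hU
  have hγβ : ∀ a b : Vec K, ∑ i, ψ i * a i = 0 → γ (mon (Ef K) a * mon (Ff K) b) =
      U a * (mon (Ff K) b).eval (N : ℤ) - θ * ∑ i, ∑ j, a i * b j * Bm K i j := by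
    intro a b ha
    have e1 : γ (mon (Ef K) a * mon (Ff K) b) = ∑ i, ∑ j, a i * b j *
        (u i * (N : ℤ) ^ Fx K j - θ * Bm K i j + ψ i * η j) := by
      rw [mon_apply, mon_apply, sum_mul_sum, map_sum]
      refine sum_congr rfl (fun i _ => ?_)
      rw [map_sum]
      refine sum_congr rfl (fun j _ => ?_)
      rw [monomial_mul_monomial, hγm, ← hψe]
      congr 1
      exact hg i (by omega) j (by omega)
    have e2 : (∑ i, ψ i * a i) * ∑ j, b j * η j = 0 := by rw [ha, zero_mul]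
    rw [e1, mon_eval, hU, ← add_zero (_ - _), ← e2]
    simp only [sum_mul_sum]
    simp only [mul_sum, ← sum_sub_distrib, ← sum_add_distrib]
    refine sum_congr rfl (fun i _ => sum_congr rfl (fun j _ => ?_))
    simp only [Ff]
    ring
  have hT : ∀ᶠ T : ℕ in atTop, ∀ x ∈ F,
      (0 < (mon (Ef K) (Hs.a x)).eval (N : ℤ) →
        0 < (T : ℤ) * (mon (Ef K) (Hs.a x)).eval (N : ℤ) + U (Hs.a x)) ∧
      (0 < (Hs.c x).1.eval (N : ℤ) →
        0 < (T : ℤ) * (Hs.c x).1.eval (N : ℤ) + (γ (Hs.c x).1 + θ * (Hs.c x).2)) := by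
    rw [eventually_all_finite hF]
    intro x _
    have : ∀ A B : ℤ, ∀ᶠ T : ℕ in atTop, 0 < A → 0 < (T : ℤ) * A + B := by
      intro A B
      by_cases h : 0 < A
      · filter_upwards [large A B h] with N hN _ using hN
      · exact Eventually.of_forall (fun N h' => absurd h' h)
    exact (this _ _).and (this _ _)
  obtain ⟨T, hT⟩ := hT.exists
  refine ⟨fun x : Hs (bet K) => (⟨(T : ℤ) * (mon (Ef K) x.a).eval (N : ℤ) + U x.a,
    (mon (Ff K) x.b).eval (N : ℤ), (T : ℤ) * x.c.1.eval (N : ℤ) + (γ x.c.1 + θ * x.c.2)⟩ : HZ),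
    ?_, ?_⟩
  · intro (x : Hs (bet K)) hx (y : Hs (bet K)) _
    have hx' : ∑ i, ψ i * x.a i = 0 := hFS x hx
    refine Hs.ext ?_ ?_ ?_
    · show (T : ℤ) * (mon (Ef K) (x.a + y.a)).eval (N : ℤ) + U (x.a + y.a) =
        ((T : ℤ) * (mon (Ef K) x.a).eval (N : ℤ) + U x.a) +
          ((T : ℤ) * (mon (Ef K) y.a).eval (N : ℤ) + U y.a)
      simp only [map_add, eval_add, hU, Pi.add_apply, add_mul, sum_add_distrib]
      ring
    · show (mon (Ff K) (x.b + y.b)).eval (N : ℤ) =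
        (mon (Ff K) x.b).eval (N : ℤ) + (mon (Ff K) y.b).eval (N : ℤ)
      rw [map_add, eval_add]
    · show (T : ℤ) * (x.c.1 + y.c.1 + mon (Ef K) x.a * mon (Ff K) y.b).eval (N : ℤ) +
        (γ (x.c.1 + y.c.1 + mon (Ef K) x.a * mon (Ff K) y.b) +
          θ * (x.c.2 + y.c.2 + ∑ i, ∑ j, x.a i * y.b j * Bm K i j)) =
        ((T : ℤ) * x.c.1.eval (N : ℤ) + (γ x.c.1 + θ * x.c.2)) +
        ((T : ℤ) * y.c.1.eval (N : ℤ) + (γ y.c.1 + θ * y.c.2)) +
        ((T : ℤ) * (mon (Ef K) x.a).eval (N : ℤ) + U x.a) * (mon (Ff K) y.b).eval (N : ℤ)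
      rw [map_add, map_add, hγβ _ _ hx', eval_add, eval_add, eval_mul]
      ring
  · intro (x : Hs (bet K)) hx h1
    refine (Heis.one_lt _).2 ?_
    obtain ⟨a1, a2, a3⟩ := hN1 x hx
    obtain ⟨b1, b2⟩ := hT x hx
    rcases (Gp.one_lt K x).1 h1 with h | ⟨h, h' | ⟨h', h'' | ⟨h'', h3⟩⟩⟩
    · exact Or.inl (b1 (a1 h))
    · exact Or.inr ⟨by simp [h, hU], Or.inl (a2 h')⟩
    · exact Or.inr ⟨by simp [h, hU], Or.inr ⟨by simp [h'], b2 (a3 h'')⟩⟩
    · refine Or.inr ⟨by simp [h, hU], Or.inr ⟨by simp [h'], ?_⟩⟩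
      simpa [h''] using mul_pos hθ h3

lemma exists_hyp {m n : ℕ} (h : n ≤ m) (a : Fin n → Fin (m + 1) → ℤ) :
    ∃ ψ : Fin (m + 1) → ℤ, ψ ≠ 0 ∧ ∀ t, ∑ i, ψ i * a t i = 0 := by
  let Φ : (Fin (m + 1) → ℤ) →ₗ[ℤ] (Fin n → ℤ) :=
    { toFun := fun ψ t => ∑ i, ψ i * a t i
      map_add' := fun x y => by ext t; simp [add_mul, sum_add_distrib]
      map_smul' := fun c x => by ext t; simp [mul_sum, mul_assoc] }
  by_contra hc
  push Not at hc
  have hinj : Function.Injective Φ := by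
    rw [injective_iff_map_eq_zero]
    intro ψ hψ
    by_contra h0
    obtain ⟨t, ht⟩ := hc ψ h0
    exact ht (congrFun hψ t)
  have := LinearMap.finrank_le_finrank_of_injective hinj
  simp at this
  omega

lemma Gp_holds {K n : ℕ} (hK : 2 ≤ K) (hn : n ≤ 2 * K) {e : Term × Term}
    (hb : e.1.Below n ∧ e.2.Below n) (he : Holds Heis e) : Holds (Gp K) e := by
  intro v
  obtain ⟨ψ, hψ, h⟩ := exists_hyp hn (fun t : Fin n => Hs.a (v t))
  set w : ℕ → (Gp K).carrier := fun i => if i < n then v i else 1 with hw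
  have hvw : ∀ i < n, v i = w i := fun i hi => by simp [hw, hi]
  rw [eval_congr hvw _ hb.1, eval_congr hvw _ hb.2]
  refine approx (Gp.tot K) (hyp K ψ) (fun F h1 h2 => hyp_good hK hψ F h1 h2) he w (fun i => ?_)
  by_cases hi : i < n
  · rw [← hvw i hi]
    exact h ⟨i, hi⟩
  · simp only [hw, if_neg hi]
    exact Subgroup.one_mem _

end Pool.Agent.Lib.MP_2301b5_al
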